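import Mathlib

/-! Random iteration of entire functions with a common escape radius: the set of the points which
cannot escape, and the uniform probability of absorption. -/

set_option autoImplicit false

open MeasureTheory Filter Topology Metric Set
open scoped ENNReal

namespace Pool.Agent.U523.RC

/-- standing assumptions: a family of entire functions, a law on the parameters, a set of full
measure in its support, an escape radius, and a disc of translates of one of the functions -/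
structure Sys (E : Type) [MetricSpace E] [ProperSpace E] [MeasurableSpace E] [BorelSpace E] where
  f : E → ℂ → ℂ
  cont : Continuous fun p : E × ℂ => f p.1 p.2
  diff : ∀ a, Differentiable ℂ (f a)
  dcont : Continuous fun p : E × ℂ => deriv (f p.1) p.2
  μ : Measure E
  prob : IsProbabilityMeasure μ
  S : Set E
  hS : ∀ a ∈ S, ∀ r > 0, 0 < μ (ball a r)
  S0 : ∀ᵐ a ∂μ, a ∈ S
  R : ℝ
  hR : 0 < R
  out : ∀ a ∈ S, ∀ z, R ≤ ‖z‖ → 2 * ‖z‖ ≤ ‖f a z‖
  cn : ℕ
  crit : ∀ a ∈ S, ∃ s : Finset ℂ, s.card ≤ cn ∧ ∀ u, deriv (f a) u = 0 → u ∈ s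
  a0 : E
  a0S : a0 ∈ S
  ε : ℝ
  hε : 0 < ε
  disc : ∀ t : ℂ, ‖t‖ < ε → ∃ a ∈ S, ∀ z, f a z = f a0 z + t

variable {E : Type} [MetricSpace E] [ProperSpace E] [MeasurableSpace E] [BorelSpace E] (X : Sys E)

instance : IsProbabilityMeasure X.μ := X.prob

/-- `z` can escape -/
inductive Esc : ℂ → Prop
  | out (z : ℂ) : X.R < ‖z‖ → Esc z
  | step (a : E) (z : ℂ) : a ∈ X.S → Esc (X.f a z) → Esc z

/-- the points which cannot escape -/
def Kf : Set ℂ := {z | ¬ Esc X z}

theorem Kf_le {z : ℂ} (hz : z ∈ Kf X) : ‖z‖ ≤ X.R := by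
  by_contra h
  exact hz (Esc.out z (not_le.1 h))

theorem Kf_map {z : ℂ} (hz : z ∈ Kf X) {a : E} (ha : a ∈ X.S) : X.f a z ∈ Kf X :=
  fun h => hz (Esc.step a z ha h)

theorem Kf_disc {z : ℂ} (hz : z ∈ Kf X) {t : ℂ} (ht : ‖t‖ < X.ε) : X.f X.a0 z + t ∈ Kf X := by
  obtain ⟨a, ha, h⟩ := X.disc t ht
  rw [← h z]
  exact Kf_map X hz ha

theorem fcont (a : E) : Continuous (X.f a) := (X.diff a).continuous

theorem esc_nhds {z : ℂ} (h : Esc X z) : ∀ᶠ w in 𝓝 z, Esc X w := by
  induction h with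
  | out z hz =>
    have : ∀ᶠ w in 𝓝 z, X.R < ‖w‖ := continuous_norm.continuousAt.eventually (lt_mem_nhds hz)
    exact this.mono fun w hw => Esc.out w hw
  | step a z ha _ ih =>
    exact ((fcont X a).continuousAt.eventually ih).mono fun w hw => Esc.step a w ha hw

theorem isClosed_Kf : IsClosed (Kf X) := by
  rw [← isOpen_compl_iff, isOpen_iff_mem_nhds]
  intro z hz
  have h : Esc X z := by
    by_contra h
    exact hz h
  filter_upwards [esc_nhds X h] with w hw
  exact fun hw' => hw' hw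

theorem isCompact_Kf : IsCompact (Kf X) :=
  (isCompact_closedBall (0 : ℂ) X.R).of_isClosed_subset (isClosed_Kf X) fun z hz => by
    rw [mem_closedBall_zero_iff]; exact Kf_le X hz

/-- the good radius -/
theorem exists_eta : ∃ η > 0, ∀ a, dist a X.a0 < η → ∀ y z : ℂ, ‖y‖ ≤ X.R → dist z y < η →
    dist (X.f a z) (X.f X.a0 y) < X.ε / 2 := by
  have hc : IsCompact (closedBall X.a0 1 ×ˢ closedBall (0 : ℂ) (X.R + 1)) :=
    (isCompact_closedBall _ _).prod (isCompact_closedBall _ _)
  have hu := hc.uniformContinuousOn_of_continuous X.cont.continuousOn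
  rw [Metric.uniformContinuousOn_iff] at hu
  obtain ⟨δ, hδ, h⟩ := hu (X.ε / 2) (half_pos X.hε)
  refine ⟨min δ 1, lt_min hδ one_pos, fun a ha y z hy hz => ?_⟩
  have h1 : dist a X.a0 < δ := ha.trans_le (min_le_left _ _)
  have h2 : dist a X.a0 < 1 := ha.trans_le (min_le_right _ _)
  have h3 : dist z y < δ := hz.trans_le (min_le_left _ _)
  have h4 : dist z y < 1 := hz.trans_le (min_le_right _ _)
  refine h (a, z) ⟨?_, ?_⟩ (X.a0, y) ⟨?_, ?_⟩ ?_
  · exact mem_closedBall.2 h2.le
  · rw [mem_closedBall_zero_iff]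
    have : ‖z‖ ≤ ‖z - y‖ + ‖y‖ := by
      calc ‖z‖ = ‖(z - y) + y‖ := by ring_nf
        _ ≤ _ := norm_add_le _ _
    rw [dist_eq_norm] at h4
    show ‖z‖ ≤ _
    linarith
  · exact mem_closedBall_self zero_le_one
  · rw [mem_closedBall_zero_iff]
    show ‖y‖ ≤ _
    linarith
  · rw [Prod.dist_eq]
    exact max_lt h1 h3

/-- the good radius -/
noncomputable def eta : ℝ := (exists_eta X).choose

theorem eta_pos : 0 < eta X := (exists_eta X).choose_spec.1

theorem eta_spec {a : E} (ha : dist a X.a0 < eta X) {y z : ℂ} (hy : ‖y‖ ≤ X.R)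
    (hz : dist z y < eta X) : dist (X.f a z) (X.f X.a0 y) < X.ε / 2 :=
  (exists_eta X).choose_spec.2 a ha y z hy hz

/-- good parameters -/
def G : Set E := ball X.a0 (eta X)

theorem G_ball {a : E} (ha : a ∈ G X) {z : ℂ} (hz : z ∈ Kf X) : ball (X.f a z) (X.ε / 2) ⊆ Kf X := by
  intro w hw
  have h1 := eta_spec X (mem_ball.1 ha) (Kf_le X hz) (z := z) (by rw [dist_self]; exact eta_pos X)
  have h2 : ‖w - X.f X.a0 z‖ < X.ε := by
    rw [← dist_eq_norm]
    have := dist_triangle w (X.f a z) (X.f X.a0 z)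
    have h3 := mem_ball.1 hw
    linarith
  have h3 := Kf_disc X hz h2
  rwa [add_sub_cancel] at h3

theorem G_near {a : E} (ha : a ∈ G X) {y z : ℂ} (hy : y ∈ Kf X) (hz : dist z y < eta X) :
    X.f a z ∈ Kf X := by
  have h1 := eta_spec X (mem_ball.1 ha) (Kf_le X hy) hz
  have h2 : ‖X.f a z - X.f X.a0 y‖ < X.ε := by
    rw [← dist_eq_norm]
    have := X.hε
    linarith
  have h3 := Kf_disc X hy h2
  rwa [add_sub_cancel] at h3

theorem G_meas : MeasurableSet (G X) := measurableSet_ball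

theorem G_pos : 0 < X.μ (G X) := X.hS _ X.a0S _ (eta_pos X)

/-- the bad region -/
def D : Set ℂ := closedBall 0 X.R \ Kf X

theorem D_meas : MeasurableSet (D X) := measurableSet_closedBall.diff (isClosed_Kf X).measurableSet

/-- probability of having escaped after `n` steps -/
noncomputable def e : ℕ → ℂ → ℝ≥0∞
  | 0 => indicator {z | X.R < ‖z‖} 1
  | n + 1 => fun z => ∫⁻ a, e n (X.f a z) ∂X.μ

/-- probability of staying in the bad region for `n` steps -/
noncomputable def b : ℕ → ℂ → ℝ≥0∞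
  | 0 => indicator (D X) 1
  | n + 1 => indicator (D X) fun z => ∫⁻ a, b n (X.f a z) ∂X.μ

theorem fmeas : Measurable fun p : E × ℂ => X.f p.1 p.2 := X.cont.measurable

theorem fmeas' : Measurable fun p : ℂ × E => X.f p.2 p.1 :=
  (X.cont.comp (continuous_snd.prodMk continuous_fst)).measurable

theorem e_meas (n : ℕ) : Measurable (e X n) := by
  induction n with
  | zero => exact measurable_one.indicator (measurableSet_lt measurable_const measurable_norm)
  | succ n ih =>
    exact Measurable.lintegral_prod_right' (f := fun p : ℂ × E => e X n (X.f p.2 p.1))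
      (ih.comp (fmeas' X))

theorem b_meas (n : ℕ) : Measurable (b X n) := by
  induction n with
  | zero => exact measurable_one.indicator (D_meas X)
  | succ n ih =>
    exact (Measurable.lintegral_prod_right' (f := fun p : ℂ × E => b X n (X.f p.2 p.1))
      (ih.comp (fmeas' X))).indicator (D_meas X)

theorem out' {a : E} (ha : a ∈ X.S) {z : ℂ} (hz : X.R < ‖z‖) : X.R < ‖X.f a z‖ := by
  have h1 := X.out a ha z hz.le
  have := X.hR
  linarith

theorem e_out (n : ℕ) : ∀ z, X.R < ‖z‖ → e X n z = 1 := by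
  induction n with
  | zero => intro z hz; exact indicator_of_mem (show z ∈ {z : ℂ | X.R < ‖z‖} from hz) _
  | succ n ih =>
    intro z hz
    show ∫⁻ a, e X n (X.f a z) ∂X.μ = 1
    rw [lintegral_congr_ae (g := fun _ => 1) (by
      filter_upwards [X.S0] with a ha
      exact ih _ (out' X ha hz))]
    simp

theorem e_mono (n : ℕ) : ∀ z, e X n z ≤ e X (n + 1) z := by
  induction n with
  | zero =>
    intro z
    by_cases hz : X.R < ‖z‖
    · rw [e_out X 1 z hz, e_out X 0 z hz]
    · have : e X 0 z = 0 := indicator_of_notMem (show z ∉ {z : ℂ | X.R < ‖z‖} from hz) _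
      rw [this]; exact zero_le
  | succ n ih => intro z; exact lintegral_mono fun a => ih _

theorem e_mono' {m n : ℕ} (h : m ≤ n) (z : ℂ) : e X m z ≤ e X n z := by
  induction h with
  | refl => exact le_rfl
  | step _ ih => exact ih.trans (e_mono X _ z)

theorem b_anti (n : ℕ) : ∀ z, b X (n + 1) z ≤ b X n z := by
  induction n with
  | zero =>
    intro z
    by_cases hz : z ∈ D X
    · have h0 : b X 0 z = 1 := indicator_of_mem hz _
      have h1 : b X 1 z = ∫⁻ a, b X 0 (X.f a z) ∂X.μ := indicator_of_mem hz _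
      rw [h0, h1]
      calc ∫⁻ a, b X 0 (X.f a z) ∂X.μ ≤ ∫⁻ _, 1 ∂X.μ :=
            lintegral_mono fun a => indicator_le_self' (f := (1 : ℂ → ℝ≥0∞))
              (fun _ _ => zero_le) _
        _ = 1 := by simp
    · have h1 : b X 1 z = 0 := indicator_of_notMem hz _
      rw [h1]; exact zero_le
  | succ n ih =>
    intro z
    exact indicator_le_indicator (lintegral_mono fun a => ih _)

theorem b_anti' {m n : ℕ} (h : m ≤ n) (z : ℂ) : b X n z ≤ b X m z := by
  induction h with
  | refl => exact le_rfl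
  | step _ ih => exact (b_anti X _ z).trans ih

theorem b_notin (n : ℕ) {z : ℂ} (hz : z ∉ D X) : b X n z = 0 := by
  cases n with
  | zero => exact indicator_of_notMem hz _
  | succ n => exact indicator_of_notMem hz _

theorem b_in (n : ℕ) {z : ℂ} (hz : z ∈ D X) : b X (n + 1) z = ∫⁻ a, b X n (X.f a z) ∂X.μ :=
  indicator_of_mem hz _

theorem b_zero_in {z : ℂ} (hz : z ∈ D X) : b X 0 z = 1 := indicator_of_mem hz _

theorem b_add_e (n : ℕ) : ∀ z, b X n z + e X n z ≤ 1 := by
  induction n with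
  | zero =>
    intro z
    by_cases hz : z ∈ D X
    · have h0 : e X 0 z = 0 := by
        refine indicator_of_notMem ?_ _
        have := hz.1
        rw [mem_closedBall_zero_iff] at this
        exact not_lt.2 this
      rw [b_zero_in X hz, h0, add_zero]
    · rw [b_notin X 0 hz, zero_add]
      exact indicator_le_self' (f := (1 : ℂ → ℝ≥0∞)) (fun _ _ => zero_le) _
  | succ n ih =>
    intro z
    calc b X (n + 1) z + e X (n + 1) z
        ≤ (∫⁻ a, b X n (X.f a z) ∂X.μ) + ∫⁻ a, e X n (X.f a z) ∂X.μ := by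
          gcongr
          · exact indicator_le_self' (fun _ _ => zero_le) z
          · exact le_rfl
      _ = ∫⁻ a, (b X n (X.f a z) + e X n (X.f a z)) ∂X.μ := by
          rw [lintegral_add_left]
          exact (b_meas X n).comp ((fmeas X).comp (measurable_id.prodMk measurable_const))
      _ ≤ ∫⁻ _, 1 ∂X.μ := lintegral_mono fun a => ih _
      _ = 1 := by simp

theorem b_mul {m : ℕ} {c : ℝ≥0∞} (hc : ∀ z, b X m z ≤ c) (n : ℕ) :
    ∀ z, b X (n + m) z ≤ c * b X n z := by
  induction n with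
  | zero =>
    intro z
    rw [zero_add]
    by_cases hz : z ∈ D X
    · rw [b_zero_in X hz, mul_one]; exact hc z
    · rw [b_notin X m hz]; exact zero_le
  | succ n ih =>
    intro z
    by_cases hz : z ∈ D X
    · rw [show n + 1 + m = (n + m) + 1 by ring, b_in X _ hz, b_in X _ hz]
      calc ∫⁻ a, b X (n + m) (X.f a z) ∂X.μ ≤ ∫⁻ a, c * b X n (X.f a z) ∂X.μ :=
            lintegral_mono fun a => ih _
        _ = c * ∫⁻ a, b X n (X.f a z) ∂X.μ := by
            rw [lintegral_const_mul]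
            exact (b_meas X n).comp ((fmeas X).comp (measurable_id.prodMk measurable_const))
    · rw [b_notin X _ hz]; exact zero_le

theorem b_le_one (n : ℕ) (z : ℂ) : b X n z ≤ 1 := (le_add_right le_rfl).trans (b_add_e X n z)

/-- escape with a positive probability, locally uniformly -/
theorem esc_unif {z : ℂ} (h : Esc X z) :
    ∃ n : ℕ, ∃ p : ℝ≥0∞, 0 < p ∧ ∀ᶠ w in 𝓝 z, p ≤ e X n w := by
  induction h with
  | out z hz =>
    refine ⟨0, 1, one_pos, ?_⟩
    have : ∀ᶠ w in 𝓝 z, X.R < ‖w‖ := continuous_norm.continuousAt.eventually (lt_mem_nhds hz)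
    exact this.mono fun w hw => (e_out X 0 w hw).ge
  | step a z ha _ ih =>
    obtain ⟨n, p, hp, hw⟩ := ih
    have h1 : ∀ᶠ q : E × ℂ in 𝓝 (a, z), p ≤ e X n (X.f q.1 q.2) :=
      (X.cont.continuousAt (x := (a, z))).eventually hw
    rw [nhds_prod_eq, eventually_prod_iff] at h1
    obtain ⟨P, hP, Q, hQ, hPQ⟩ := h1
    obtain ⟨r, hr, hrP⟩ := Metric.eventually_nhds_iff_ball.1 hP
    refine ⟨n + 1, p * X.μ (ball a r), ENNReal.mul_pos hp.ne' (X.hS a ha r hr).ne', ?_⟩
    filter_upwards [hQ] with w hw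
    calc p * X.μ (ball a r) = ∫⁻ _ in ball a r, p ∂X.μ := by
          rw [setLIntegral_const]
      _ ≤ ∫⁻ c in ball a r, e X n (X.f c w) ∂X.μ := by
          refine setLIntegral_mono' measurableSet_ball fun c hc => hPQ (hrP c hc) hw
      _ ≤ ∫⁻ c, e X n (X.f c w) ∂X.μ := setLIntegral_le_lintegral _ _

/-- the points of the bad region away from the set `Kf` -/
theorem far_unif : ∃ n : ℕ, ∃ p : ℝ≥0∞, 0 < p ∧
    ∀ z ∈ closedBall (0 : ℂ) X.R ∩ {z | ∀ y ∈ Kf X, eta X ≤ dist z y}, p ≤ e X n z := by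
  have hcl : IsClosed {z : ℂ | ∀ y ∈ Kf X, eta X ≤ dist z y} := by
    have : {z : ℂ | ∀ y ∈ Kf X, eta X ≤ dist z y} = ⋂ y ∈ Kf X, {z | eta X ≤ dist z y} := by
      ext z; simp
    rw [this]
    exact isClosed_biInter fun y _ => isClosed_le continuous_const (continuous_id.dist continuous_const)
  have hc : IsCompact (closedBall (0 : ℂ) X.R ∩ {z | ∀ y ∈ Kf X, eta X ≤ dist z y}) :=
    (isCompact_closedBall _ _).inter_right hcl
  refine hc.induction_on (p := fun s => ∃ n : ℕ, ∃ p : ℝ≥0∞, 0 < p ∧ ∀ z ∈ s, p ≤ e X n z)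
    ⟨0, 1, one_pos, fun z hz => hz.elim⟩ ?_ ?_ ?_
  · rintro s t hst ⟨n, p, hp, h⟩
    exact ⟨n, p, hp, fun z hz => h z (hst hz)⟩
  · rintro s t ⟨n, p, hp, h⟩ ⟨n', p', hp', h'⟩
    refine ⟨max n n', min p p', lt_min hp hp', fun z hz => ?_⟩
    rcases hz with hz | hz
    · exact (min_le_left _ _).trans ((h z hz).trans (e_mono' X (le_max_left _ _) z))
    · exact (min_le_right _ _).trans ((h' z hz).trans (e_mono' X (le_max_right _ _) z))
  · intro z hz
    have h1 : Esc X z := by
      by_contra h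
      have := hz.2 z h
      rw [dist_self] at this
      exact absurd (eta_pos X) (not_lt.2 this)
    obtain ⟨n, p, hp, h⟩ := esc_unif X h1
    exact ⟨{w | p ≤ e X n w}, mem_nhdsWithin_of_mem_nhds h, n, p, hp, fun w hw => hw⟩

/-- uniform absorption -/
theorem absorb : ∃ N : ℕ, 0 < N ∧ ∃ c : ℝ≥0∞, c < 1 ∧ ∀ z, b X N z ≤ c := by
  obtain ⟨n, p, hp, h⟩ := far_unif X
  refine ⟨n + 1, n.succ_pos, max (1 - p) (1 - X.μ (G X)), ?_, fun z => ?_⟩
  · exact max_lt (ENNReal.sub_lt_self ENNReal.one_ne_top one_ne_zero hp.ne')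
      (ENNReal.sub_lt_self ENNReal.one_ne_top one_ne_zero (G_pos X).ne')
  · by_cases hz : z ∈ D X
    · by_cases hf : ∀ y ∈ Kf X, eta X ≤ dist z y
      · refine le_trans ?_ (le_max_left _ _)
        have h1 := h z ⟨hz.1, hf⟩
        have h2 := b_add_e X (n + 1) z
        have h3 := h1.trans (e_mono X n z)
        refine ENNReal.le_sub_of_add_le_right ?_ (le_trans (by gcongr) h2)
        exact ne_top_of_le_ne_top ENNReal.one_ne_top (h3.trans ((le_add_left le_rfl).trans h2))
      · refine le_trans ?_ (le_max_right _ _)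
        push Not at hf
        obtain ⟨y, hy, hd⟩ := hf
        refine (b_anti' X (Nat.succ_le_succ (Nat.zero_le n)) z).trans ?_
        rw [b_in X 0 hz]
        have h1 : ∀ a, b X 0 (X.f a z) ≤ indicator (G X)ᶜ 1 a := by
          intro a
          by_cases ha : a ∈ G X
          · rw [b_notin X 0 (fun hD => hD.2 (G_near X ha hy hd))]; exact zero_le
          · rw [indicator_of_mem (mem_compl ha)]
            exact b_le_one X 0 _
        calc ∫⁻ a, b X 0 (X.f a z) ∂X.μ ≤ ∫⁻ a, indicator (G X)ᶜ 1 a ∂X.μ := lintegral_mono h1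
          _ = X.μ (G X)ᶜ := lintegral_indicator_one (G_meas X).compl
          _ = 1 - X.μ (G X) := prob_compl_eq_one_sub (G_meas X)
    · rw [b_notin X _ hz]; exact zero_le

theorem b_pow {N : ℕ} {c : ℝ≥0∞} (hc : ∀ z, b X N z ≤ c) (k : ℕ) : ∀ z, b X (k * N) z ≤ c ^ k := by
  induction k with
  | zero => intro z; rw [zero_mul, pow_zero]; exact b_le_one X 0 z
  | succ k ih =>
    intro z
    calc b X ((k + 1) * N) z = b X (k * N + N) z := by rw [Nat.succ_mul]
      _ ≤ c * b X (k * N) z := b_mul X hc (k * N) z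
      _ ≤ c * c ^ k := by gcongr; exact ih z
      _ = c ^ (k + 1) := (pow_succ' c k).symm

/-- exponential absorption -/
theorem absorb_exp : ∃ K θ : ℝ, 0 < K ∧ 0 < θ ∧ θ < 1 ∧
    ∀ n z, b X n z ≤ ENNReal.ofReal (K * θ ^ n) := by
  obtain ⟨N, hN, c, hc, h⟩ := absorb X
  set q : ℝ := max c.toReal (1 / 2) with hq
  have hct : c ≠ ∞ := (hc.trans ENNReal.one_lt_top).ne
  have hq0 : 0 < q := lt_of_lt_of_le (by norm_num) (le_max_right _ _)
  have hq1 : q < 1 := by
    refine max_lt ?_ (by norm_num)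
    rw [← ENNReal.toReal_one]
    exact (ENNReal.toReal_lt_toReal hct ENNReal.one_ne_top).2 hc
  have hcq : c ≤ ENNReal.ofReal q := by
    rw [← ENNReal.ofReal_toReal hct]
    exact ENNReal.ofReal_le_ofReal (le_max_left _ _)
  have hN' : (0 : ℝ) < N := by exact_mod_cast hN
  set θ : ℝ := q ^ (1 / (N : ℝ)) with hθ
  have hθ0 : 0 < θ := Real.rpow_pos_of_pos hq0 _
  have hθ1 : θ < 1 := Real.rpow_lt_one hq0.le hq1 (by positivity)
  have hθN : θ ^ N = q := by
    rw [hθ, ← Real.rpow_natCast, ← Real.rpow_mul hq0.le, one_div, inv_mul_cancel₀ hN'.ne',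
      Real.rpow_one]
  refine ⟨1 / q, θ, by positivity, hθ0, hθ1, fun n z => ?_⟩
  have h1 : b X n z ≤ c ^ (n / N) :=
    (b_anti' X (Nat.div_mul_le_self n N) z).trans (b_pow X h (n / N) z)
  refine h1.trans ((pow_le_pow_left' hcq _).trans ?_)
  rw [← ENNReal.ofReal_pow hq0.le]
  refine ENNReal.ofReal_le_ofReal ?_
  rw [one_div, inv_mul_eq_div, le_div_iff₀ hq0, ← pow_succ, ← hθN, ← pow_mul]
  refine pow_le_pow_of_le_one hθ0.le hθ1.le ?_
  have := Nat.div_add_mod n N
  have := Nat.mod_lt n hN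
  rw [Nat.mul_add, mul_one]
  omega

end Pool.Agent.U523.RC
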