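import Pool.Agent.U523.RC.A

/-! Random iteration: contraction inside the set of the points which cannot escape, attracting
cycles of the compositions. -/

set_option autoImplicit false

open MeasureTheory Filter Topology Metric Set
open scoped ENNReal

namespace Pool.Agent.U523.RC

/-- attraction by a cycle of period at most `M` and multiplier at most `lam` -/
def Att (T : ℂ → ℂ) (M : ℕ) (lam : ℝ) (z : ℂ) : Prop :=
  ∃ m : ℕ, 0 < m ∧ m ≤ M ∧ ∃ p : ℂ, T^[m] p = p ∧ ‖deriv T^[m] p‖ ≤ lam ∧
    Tendsto (fun i : ℕ => T^[m * i] z) atTop (𝓝 p)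

theorem diff_it {T : ℂ → ℂ} (hT : Differentiable ℂ T) (n : ℕ) : Differentiable ℂ T^[n] := by
  induction n with
  | zero => exact differentiable_id
  | succ n ih => rw [Function.iterate_succ']; exact hT.comp ih

theorem semi_it (F H : ℂ → ℂ) (n : ℕ) (x : ℂ) : (F ∘ H)^[n] (F x) = F ((H ∘ F)^[n] x) := by
  induction n generalizing x with
  | zero => rfl
  | succ n ih =>
    rw [Function.iterate_succ_apply, Function.iterate_succ_apply]
    exact ih (H (F x))

/-- multipliers of corresponding cycles -/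
theorem mult_eq {F H : ℂ → ℂ} (hF : Differentiable ℂ F) (hH : Differentiable ℂ H) {m : ℕ}
    (hm : 0 < m) {p : ℂ} (hp : (H ∘ F)^[m] p = p) :
    deriv (F ∘ H)^[m] (F p) = deriv (H ∘ F)^[m] p := by
  have hFH : Differentiable ℂ (F ∘ H) := hF.comp hH
  have hHF : Differentiable ℂ (H ∘ F) := hH.comp hF
  have e1 : (F ∘ H)^[m] ∘ F = F ∘ (H ∘ F)^[m] := funext fun x => semi_it F H m x
  have h1 : deriv ((F ∘ H)^[m] ∘ F) p = deriv (F ∘ H)^[m] (F p) * deriv F p :=
    deriv_comp p ((diff_it hFH m) _) (hF p)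
  have h2 : deriv (F ∘ (H ∘ F)^[m]) p = deriv F ((H ∘ F)^[m] p) * deriv (H ∘ F)^[m] p :=
    deriv_comp p (hF _) ((diff_it hHF m) p)
  rw [e1, h2, hp] at h1
  by_cases h0 : deriv F p = 0
  · obtain ⟨k, rfl⟩ : ∃ k, m = k + 1 := ⟨m - 1, by omega⟩
    have e2 : (F ∘ H)^[k + 1] = F ∘ ((H ∘ F)^[k] ∘ H) := by
      funext y
      rw [Function.iterate_succ_apply]
      exact semi_it F H k (H y)
    have e3 : (H ∘ F)^[k + 1] = ((H ∘ F)^[k] ∘ H) ∘ F := by
      funext y
      rw [Function.iterate_succ_apply]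
      rfl
    have hd : Differentiable ℂ ((H ∘ F)^[k] ∘ H) := (diff_it hHF k).comp hH
    have h3 : deriv (F ∘ H)^[k + 1] (F p) = 0 := by
      rw [e2, deriv_comp _ (hF _) (hd _)]
      have : ((H ∘ F)^[k] ∘ H) (F p) = p := by
        have := congrFun e3 p
        rw [hp] at this
        exact this.symm
      rw [this, h0, zero_mul]
    have h4 : deriv (H ∘ F)^[k + 1] p = 0 := by
      rw [e3, deriv_comp _ (hd _) (hF _), h0, mul_zero]
    rw [h3, h4]
  · exact mul_left_cancel₀ h0 (by rw [h1]; ring)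

theorem att_semi {F H : ℂ → ℂ} (hF : Differentiable ℂ F) (hH : Differentiable ℂ H) {M : ℕ}
    {lam : ℝ} {x : ℂ} (h : Att (H ∘ F) M lam x) : Att (F ∘ H) M lam (F x) := by
  obtain ⟨m, hm, hM, p, hp, hd, ht⟩ := h
  refine ⟨m, hm, hM, F p, ?_, ?_, ?_⟩
  · rw [semi_it, hp]
  · rw [mult_eq hF hH hm hp]; exact hd
  · have h1 : (fun i : ℕ => (F ∘ H)^[m * i] (F x)) = fun i => F ((H ∘ F)^[m * i] x) :=
      funext fun i => semi_it F H _ x
    rw [h1]
    exact (hF.continuous.tendsto p).comp ht

theorem mult_it {T : ℂ → ℂ} (hT : Differentiable ℂ T) {m : ℕ} (hm : 0 < m) {p : ℂ}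
    (hp : T^[m] p = p) (j : ℕ) :
    T^[m] (T^[j] p) = T^[j] p ∧ deriv T^[m] (T^[j] p) = deriv T^[m] p := by
  induction j with
  | zero => exact ⟨hp, rfl⟩
  | succ j ih =>
    rw [Function.iterate_succ_apply']
    constructor
    · rw [← Function.iterate_succ_apply, Function.iterate_succ_apply', ih.1]
    · rw [← ih.2]
      exact mult_eq (F := T) (H := id) hT differentiable_id hm ih.1

theorem att_back {T : ℂ → ℂ} (hT : Differentiable ℂ T) {M : ℕ} {lam : ℝ} {z : ℂ}
    (h : Att T M lam (T z)) : Att T M lam z := by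
  obtain ⟨m, hm, hM, p, hp, hd, ht⟩ := h
  obtain ⟨h1, h2⟩ := mult_it hT hm hp (m - 1)
  refine ⟨m, hm, hM, T^[m - 1] p, h1, by rw [h2]; exact hd, ?_⟩
  rw [← tendsto_add_atTop_iff_nat 1]
  have h3 : (fun i : ℕ => T^[m * (i + 1)] z) = fun i => T^[m - 1] (T^[m * i] (T z)) := by
    funext i
    rw [← Function.iterate_succ_apply, ← Function.iterate_add_apply]
    congr 1
    rw [Nat.mul_add, mul_one]
    omega
  rw [h3]
  exact ((diff_it hT (m - 1)).continuous.tendsto p).comp ht

theorem att_back_it {T : ℂ → ℂ} (hT : Differentiable ℂ T) {M : ℕ} {lam : ℝ} {z : ℂ} (k : ℕ)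
    (h : Att T M lam (T^[k] z)) : Att T M lam z := by
  induction k with
  | zero => exact h
  | succ k ih =>
    rw [Function.iterate_succ_apply'] at h
    exact ih (att_back hT h)

/-- Maps which contract strongly in the interior of a compact set. -/
theorem local_att {K : Set ℂ} (hK : IsCompact K) {ε : ℝ} (hε : 0 < ε) :
    ∃ M : ℕ, ∀ (T : ℂ → ℂ), Differentiable ℂ T → (∀ z ∈ K, ball (T z) (ε / 2) ⊆ K) →
      ∀ lam : ℝ, lam ≤ 1 / 4 → (∀ w, ball w (ε / 4) ⊆ K → ‖deriv T w‖ ≤ lam) →
      ∀ z ∈ K, Att T M lam z := by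
  obtain ⟨s, hsK, hsf, hs⟩ := hK.finite_cover_balls (e := ε / 32) (by positivity)
  lift s to Finset ℂ using hsf
  refine ⟨s.card, fun T hT hTK lam hl hder z hz => ?_⟩
  have hTK' : ∀ z ∈ K, T z ∈ K := fun z hz => hTK z hz (mem_ball_self (by positivity))
  have hitK : ∀ k, T^[k] z ∈ K := by
    intro k
    induction k with
    | zero => exact hz
    | succ k ih => rw [Function.iterate_succ_apply']; exact hTK' _ ih
  have hc : ∀ k : ℕ, ∃ x ∈ s, T^[k + 1] z ∈ ball x (ε / 32) := by
    intro k
    have := hs (hitK (k + 1))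
    rw [mem_iUnion₂] at this
    obtain ⟨x, hx, hx'⟩ := this
    exact ⟨x, hx, hx'⟩
  choose c hcs hcb using hc
  obtain ⟨i, hi, j, hj, hij, hcij⟩ :=
    Finset.exists_ne_map_eq_of_card_lt_of_maps_to (s := Finset.range (s.card + 1)) (t := s)
      (by rw [Finset.card_range]; omega) (f := c) (fun k _ => hcs k)
  wlog hlt : i < j generalizing i j
  · exact this j hj i hi hij.symm hcij.symm (by omega)
  rw [Finset.mem_range] at hi hj
  set u := T^[i + 1] z with hu
  set m := j - i with hm
  have hm0 : 0 < m := by omega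
  have hmM : m ≤ s.card := by omega
  have hmu : T^[m] u = T^[j + 1] z := by
    rw [hu, ← Function.iterate_add_apply]
    congr 1
    omega
  have huS : ‖T^[m] u - u‖ < ε / 16 := by
    rw [← dist_eq_norm, hmu]
    have h1 := mem_ball.1 (hcb i)
    have h2 := mem_ball.1 (hcb j)
    rw [← hcij] at h2
    rw [dist_comm] at h1
    have := dist_triangle (T^[j + 1] z) (c i) u
    linarith
  -- deep points
  have hdeep : ∀ k, ball (T^[k] u) (ε / 2) ⊆ K := by
    intro k
    rw [hu, ← Function.iterate_add_apply, show k + (i + 1) = (k + i) + 1 by ring,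
      Function.iterate_succ_apply']
    exact hTK _ (hitK _)
  have hlip : ∀ k, ∀ v ∈ closedBall (T^[k] u) (ε / 8), ∀ w ∈ closedBall (T^[k] u) (ε / 8),
      ‖T v - T w‖ ≤ lam * ‖v - w‖ := by
    intro k v hv w hw
    refine (convex_closedBall (T^[k] u) (ε / 8)).norm_image_sub_le_of_norm_deriv_le
      (fun x _ => hT x) (fun x hx => hder x ?_) hw hv
    intro y hy
    apply hdeep k
    rw [mem_ball] at hy ⊢
    rw [mem_closedBall] at hx
    have := dist_triangle y x (T^[k] u)
    linarith
  have hlam0 : 0 ≤ lam := by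
    refine (norm_nonneg (deriv T u)).trans (hder u ?_)
    intro y hy
    exact hdeep 0 (ball_subset_ball (by linarith) hy)
  have hlam1 : lam ≤ 1 := by linarith
  have hB : ∀ k, ∀ v ∈ closedBall u (ε / 8), T^[k] v ∈ closedBall (T^[k] u) (ε / 8) := by
    intro k
    induction k with
    | zero => intro v hv; exact hv
    | succ k ih =>
      intro v hv
      rw [Function.iterate_succ_apply', Function.iterate_succ_apply', mem_closedBall,
        dist_eq_norm]
      have h1 := hlip k _ (ih v hv) _ (mem_closedBall_self (by positivity))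
      have h2 := mem_closedBall.1 (ih v hv)
      rw [dist_eq_norm] at h2
      have h3 : lam * ‖T^[k] v - T^[k] u‖ ≤ 1 * ‖T^[k] v - T^[k] u‖ :=
        mul_le_mul_of_nonneg_right hlam1 (norm_nonneg _)
      linarith
  have hit : ∀ k, ∀ v ∈ closedBall u (ε / 8), ∀ w ∈ closedBall u (ε / 8),
      ‖T^[k] v - T^[k] w‖ ≤ lam ^ k * ‖v - w‖ := by
    intro k
    induction k with
    | zero => intro v _ w _; simp
    | succ k ih =>
      intro v hv w hw
      rw [Function.iterate_succ_apply', Function.iterate_succ_apply']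
      refine (hlip k _ (hB k v hv) _ (hB k w hw)).trans ?_
      rw [pow_succ]
      have := mul_le_mul_of_nonneg_left (ih v hv w hw) hlam0
      linarith
  have hpl : lam ^ m ≤ lam := by
    calc lam ^ m ≤ lam ^ 1 := pow_le_pow_of_le_one hlam0 hlam1 hm0
      _ = lam := pow_one _
  have hS : ∀ v ∈ closedBall u (ε / 8), ∀ w ∈ closedBall u (ε / 8),
      ‖T^[m] v - T^[m] w‖ ≤ lam * ‖v - w‖ := fun v hv w hw =>
    (hit m v hv w hw).trans (mul_le_mul_of_nonneg_right hpl (norm_nonneg _))
  have hu0 : u ∈ closedBall u (ε / 8) := mem_closedBall_self (by positivity)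
  have hSm : ∀ v ∈ closedBall u (ε / 8), T^[m] v ∈ closedBall u (3 * ε / 32) := by
    intro v hv
    rw [mem_closedBall, dist_eq_norm]
    have h1 := hS v hv u hu0
    rw [mem_closedBall, dist_eq_norm] at hv
    have h2 := norm_sub_le_norm_sub_add_norm_sub (T^[m] v) (T^[m] u) u
    have h3 : lam * ‖v - u‖ ≤ 1 / 4 * ‖v - u‖ := mul_le_mul_of_nonneg_right hl (norm_nonneg _)
    linarith
  have hMaps : MapsTo T^[m] (closedBall u (ε / 8)) (closedBall u (ε / 8)) := fun v hv =>
    closedBall_subset_closedBall (by linarith) (hSm v hv)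
  have hcon : ContractingWith (1 / 4) (hMaps.restrict T^[m] _ _) := by
    refine ⟨by rw [← NNReal.coe_lt_coe]; norm_num, LipschitzWith.of_dist_le_mul fun v w => ?_⟩
    rw [Subtype.dist_eq, Subtype.dist_eq, dist_eq_norm, dist_eq_norm]
    have h1 := hS v v.2 w w.2
    have h2 : lam * ‖(v : ℂ) - w‖ ≤ 1 / 4 * ‖(v : ℂ) - w‖ :=
      mul_le_mul_of_nonneg_right hl (norm_nonneg _)
    have h3 : ((1 / 4 : NNReal) : ℝ) = 1 / 4 := by norm_num
    rw [h3]
    exact h1.trans h2
  obtain ⟨p, hpB, hpfix, hpt, -⟩ := ContractingWith.exists_fixedPoint'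
    (isClosed_closedBall.isComplete) hMaps hcon hu0 (edist_ne_top _ _)
  have hp' : p ∈ closedBall u (3 * ε / 32) := by
    have := hSm p hpB
    rwa [hpfix] at this
  have hnh : closedBall u (ε / 8) ∈ 𝓝 p := by
    refine mem_of_superset (isOpen_ball.mem_nhds (?_ : p ∈ ball u (ε / 8))) ball_subset_closedBall
    exact closedBall_subset_ball (by linarith) hp'
  refine att_back_it hT (i + 1) ⟨m, hm0, hmM, p, hpfix, ?_, ?_⟩
  · refine norm_deriv_le_of_lip' hlam0 ?_
    filter_upwards [hnh] with v hv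
    exact hS v hv p hpB
  · have h1 : (fun k : ℕ => T^[m * k] u) = fun k => (T^[m])^[k] u := by
      funext k; rw [Function.iterate_mul]
    show Tendsto (fun k : ℕ => T^[m * k] u) atTop (𝓝 p)
    rw [h1]
    exact hpt

variable {E : Type} [MetricSpace E] [ProperSpace E] [MeasurableSpace E] [BorelSpace E] (X : Sys E)

/-- the composition of the first `n` functions of a sequence -/
def run (α : ℕ → E) : ℕ → ℂ → ℂ
  | 0 => id
  | n + 1 => fun z => X.f (α n) (run α n z)

/-- the shifted sequence -/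
def sh (j : ℕ) (α : ℕ → E) : ℕ → E := fun k => α (j + k)

theorem run_add (α : ℕ → E) (j k : ℕ) (z : ℂ) :
    run X α (j + k) z = run X (sh j α) k (run X α j z) := by
  induction k with
  | zero => rfl
  | succ k ih =>
    show X.f (α (j + k)) (run X α (j + k) z) = X.f (α (j + k)) (run X (sh j α) k (run X α j z))
    rw [ih]

theorem run_diff (α : ℕ → E) (n : ℕ) : Differentiable ℂ (run X α n) := by
  induction n with
  | zero => exact differentiable_id
  | succ n ih => exact (X.diff (α n)).comp ih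

theorem run_Kf {α : ℕ → E} (hα : ∀ k, α k ∈ X.S) (n : ℕ) {z : ℂ} (hz : z ∈ Kf X) :
    run X α n z ∈ Kf X := by
  induction n with
  | zero => exact hz
  | succ n ih => exact Kf_map X ih (hα n)

theorem run_deriv (α : ℕ → E) (n : ℕ) (z : ℂ) :
    deriv (run X α (n + 1)) z = deriv (X.f (α n)) (run X α n z) * deriv (run X α n) z :=
  deriv_comp z (X.diff (α n) _) (run_diff X α n z)

/-- the strength of the perturbation -/
noncomputable def st : ℝ := X.ε / (8 * X.R)

theorem st_pos : 0 < st X := by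
  have := X.hε; have := X.hR
  unfold st; positivity

open Classical in
/-- the weight of a parameter -/
noncomputable def wt (a : E) : ℝ := if a ∈ G X then 1 / (1 + st X) else 1

theorem wt_pos (a : E) : 0 < wt X a := by
  have := st_pos X
  unfold wt
  split_ifs <;> positivity

theorem wt_le (a : E) : wt X a ≤ 1 := by
  have := st_pos X
  unfold wt
  split_ifs
  · rw [div_le_one (by positivity)]; linarith
  · exact le_rfl

theorem wt_good {a : E} (ha : a ∈ G X) : (1 + st X) * wt X a = 1 := by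
  have := st_pos X
  rw [wt, if_pos ha, mul_one_div, div_self (by positivity)]

theorem wt_bad {a : E} (ha : a ∉ G X) : wt X a = 1 := by rw [wt, if_neg ha]

theorem contr {α : ℕ → E} (hα : ∀ k, α k ∈ X.S) {z : ℂ} (hz : z ∈ Kf X) (n : ℕ) :
    ∃ F : ℂ → ℂ, Differentiable ℂ F ∧ MapsTo F (Kf X) (Kf X) ∧ F z = run X α n z ∧
      deriv (run X α n) z = deriv F z * ((∏ i ∈ Finset.range n, wt X (α i) : ℝ) : ℂ) := by
  induction n with
  | zero => exact ⟨id, differentiable_id, fun w hw => hw, rfl, by simp [run]⟩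
  | succ n ih =>
    obtain ⟨F, hF, hFK, hFz, hFd⟩ := ih
    set y := run X α n z with hy
    have hyK : y ∈ Kf X := run_Kf X hα n hz
    by_cases hg : α n ∈ G X
    · refine ⟨fun w => X.f (α n) (F w) + (st X : ℂ) * (X.f (α n) (F w) - X.f (α n) y), ?_, ?_, ?_,
        ?_⟩
      · exact ((X.diff _).comp hF).add ((((X.diff _).comp hF).sub_const _).const_mul _)
      · intro w hw
        apply G_ball X hg (hFK hw)
        rw [mem_ball, dist_eq_norm, add_sub_cancel_left, norm_mul, Complex.norm_real,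
          Real.norm_eq_abs, abs_of_pos (st_pos X)]
        have h1 : ‖X.f (α n) (F w) - X.f (α n) y‖ ≤ 2 * X.R := by
          refine (norm_sub_le _ _).trans ?_
          have h2 := Kf_le X (Kf_map X (hFK hw) (hα n))
          have h3 := Kf_le X (Kf_map X hyK (hα n))
          linarith
        have hR := X.hR
        have hε := X.hε
        calc st X * ‖X.f (α n) (F w) - X.f (α n) y‖ ≤ st X * (2 * X.R) := by
              have := st_pos X; gcongr
          _ = X.ε / 4 := by unfold st; field_simp; norm_num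
          _ < X.ε / 2 := by linarith
      · show X.f (α n) (F z) + (st X : ℂ) * (X.f (α n) (F z) - X.f (α n) y) =
          X.f (α n) (run X α n z)
        rw [hFz]; simp [hy]
      · have h1 : HasDerivAt (X.f (α n)) (deriv (X.f (α n)) y) (F z) := by
          rw [hFz]; exact (X.diff _ y).hasDerivAt
        have h2 : HasDerivAt (fun w => X.f (α n) (F w)) (deriv (X.f (α n)) y * deriv F z) z :=
          h1.comp z (hF z).hasDerivAt
        have h3 := h2.add ((h2.sub_const (X.f (α n) y)).const_mul (st X : ℂ))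
        have h4 : deriv (fun w => X.f (α n) (F w) + (st X : ℂ) *
            (X.f (α n) (F w) - X.f (α n) y)) z = deriv (X.f (α n)) y * deriv F z +
            (st X : ℂ) * (deriv (X.f (α n)) y * deriv F z) := h3.deriv
        rw [run_deriv, h4, Finset.prod_range_succ, hFd, ← hy]
        have h5 : ((1 + st X : ℝ) : ℂ) * ((wt X (α n) : ℝ) : ℂ) = 1 := by
          rw [← Complex.ofReal_mul, wt_good X hg, Complex.ofReal_one]
        push_cast at h5 ⊢
        linear_combination (-(deriv (X.f (α n)) y * deriv F z *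
          ∏ i ∈ Finset.range n, ((wt X (α i) : ℝ) : ℂ))) * h5
    · refine ⟨fun w => X.f (α n) (F w), (X.diff _).comp hF, fun w hw => Kf_map X (hFK hw) (hα n),
        ?_, ?_⟩
      · show X.f (α n) (F z) = X.f (α n) (run X α n z)
        rw [hFz]
      · have h2 : deriv (fun w => X.f (α n) (F w)) z = deriv (X.f (α n)) (F z) * deriv F z :=
          deriv_comp z (X.diff _ _) (hF z)
        rw [run_deriv, h2, Finset.prod_range_succ, hFd, hFz, wt_bad X hg]
        push_cast
        ring

theorem contr_bound {α : ℕ → E} (hα : ∀ k, α k ∈ X.S) {z : ℂ} (hz : ball z (X.ε / 4) ⊆ Kf X)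
    (n : ℕ) : ‖deriv (run X α n) z‖ ≤ 8 * X.R / X.ε * ∏ i ∈ Finset.range n, wt X (α i) := by
  have hR := X.hR
  have hε := X.hε
  obtain ⟨F, hF, hFK, -, hFd⟩ := contr X hα (hz (mem_ball_self (by positivity))) n
  have h1 : ‖deriv F z‖ ≤ X.R / (X.ε / 8) := by
    refine Complex.norm_deriv_le_of_forall_mem_sphere_norm_le (by positivity)
      hF.diffContOnCl fun w hw => Kf_le X (hFK (hz ?_))
    rw [mem_ball, mem_sphere.1 hw]
    linarith
  rw [hFd, norm_mul, Complex.norm_real, Real.norm_eq_abs,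
    abs_of_nonneg (Finset.prod_nonneg fun i _ => (wt_pos X _).le)]
  have h2 : X.R / (X.ε / 8) = 8 * X.R / X.ε := by field_simp
  rw [h2] at h1
  exact mul_le_mul_of_nonneg_right h1 (Finset.prod_nonneg fun i _ => (wt_pos X _).le)

theorem prod_sh {α : ℕ → E} {n : ℕ} (hper : ∀ k, α (k + n) = α k) (j : ℕ) :
    ∏ i ∈ Finset.range n, wt X (sh j α i) = ∏ i ∈ Finset.range n, wt X (α i) := by
  induction j with
  | zero => exact Finset.prod_congr rfl fun i _ => by rw [sh, zero_add]
  | succ j ih =>
    rw [← ih]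
    have h1 := Finset.prod_range_succ (fun i => wt X (sh j α i)) n
    have h2 := Finset.prod_range_succ' (fun i => wt X (sh j α i)) n
    have h3 : wt X (sh j α n) = wt X (sh j α 0) := by
      rw [sh, sh, hper]; rfl
    have h4 : ∀ i, sh j α (i + 1) = sh (j + 1) α i := fun i => by
      show α (j + (i + 1)) = α (j + 1 + i)
      congr 1
      omega
    rw [h1, h3] at h2
    simp only [h4] at h2
    exact (mul_right_cancel₀ (wt_pos X _).ne' h2).symm

/-- The points which cannot escape are attracted by cycles of the composition. -/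
theorem Kf_att : ∃ M : ℕ, ∀ (α : ℕ → E) (n : ℕ), (∀ k, α k ∈ X.S) → (∀ k, α (k + n) = α k) →
    (∃ k < n, α k ∈ G X) → ∀ lam : ℝ, lam ≤ 1 / 4 →
    8 * X.R / X.ε * ∏ i ∈ Finset.range n, wt X (α i) ≤ lam →
    ∀ z ∈ Kf X, Att (run X α n) M lam z := by
  obtain ⟨M, hM⟩ := local_att (isCompact_Kf X) X.hε
  refine ⟨M, fun α n hα hper hg lam hl hb z hz => ?_⟩
  obtain ⟨k, hk, hkG⟩ := hg
  set j := k + 1 with hj
  have hjn : j ≤ n := hk
  set H := run X α j with hH
  set F := run X (sh j α) (n - j) with hF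
  have e1 : run X α n = F ∘ H := by
    funext w
    rw [show n = j + (n - j) by omega, run_add]
    simp [hF, hH]
  have e2 : run X (sh j α) n = H ∘ F := by
    funext w
    rw [show n = (n - j) + j by omega, run_add]
    have : sh (n - j) (sh j α) = α := by
      funext i
      show α (j + (n - j + i)) = α i
      rw [show j + (n - j + i) = i + n by omega, hper]
    rw [this]
    simp [hF, hH]
  have hα' : ∀ i, sh j α i ∈ X.S := fun i => hα _
  have hT : ∀ z ∈ Kf X, ball (run X (sh j α) n z) (X.ε / 2) ⊆ Kf X := by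
    intro w hw
    obtain ⟨m, rfl⟩ : ∃ m, n = m + 1 := ⟨n - 1, by omega⟩
    show ball (X.f (sh j α m) (run X (sh j α) m w)) (X.ε / 2) ⊆ Kf X
    have h1 : sh j α m = α k := by
      show α (k + 1 + m) = α k
      rw [show k + 1 + m = k + (m + 1) by omega, hper]
    rw [h1]
    exact G_ball X hkG (run_Kf X hα' m hw)
  have h1 := hM (run X (sh j α) n) (run_diff X _ n) hT lam hl (fun w hw => by
    refine (contr_bound X hα' hw n).trans ?_
    rw [prod_sh X hper]
    exact hb) (H z) (run_Kf X hα j hz)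
  rw [e2] at h1
  have h2 := att_semi (run_diff X _ _) (run_diff X _ _) h1
  rw [e1]
  exact att_back ((run_diff X _ _).comp (run_diff X _ _)) h2

end Pool.Agent.U523.RC
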