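import Pool.Agent.U523.RC.B

/-! Random iteration: the product measure, the event that a critical value is not absorbed. -/

set_option autoImplicit false
set_option linter.unusedSectionVars false
set_option linter.deprecated false

open MeasureTheory Filter Topology Metric Set
open scoped ENNReal

namespace Pool.Agent.U523.RC

/-- projections of intersections of closed and open sets are measurable -/
theorem proj_meas {Z W : Type} [MetricSpace Z] [ProperSpace Z] [MeasurableSpace Z] [BorelSpace Z]
    [MetricSpace W] [ProperSpace W] {C O : Set (Z × W)} (hC : IsClosed C) (hO : IsOpen O) :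
    MeasurableSet {z : Z | ∃ w, (z, w) ∈ C ∩ O} := by
  obtain ⟨F, hF, -, hFU, -⟩ := hO.exists_iUnion_isClosed
  have h1 : {z : Z | ∃ w, (z, w) ∈ C ∩ O} = Prod.fst '' (C ∩ O) := by
    ext z
    constructor
    · rintro ⟨w, hw⟩; exact ⟨(z, w), hw, rfl⟩
    · rintro ⟨⟨z', w⟩, hw, rfl⟩; exact ⟨w, hw⟩
  by_cases hne : Nonempty (Z × W)
  · obtain ⟨x⟩ := hne
    have h2 : C ∩ O = ⋃ n : ℕ, ⋃ m : ℕ, (C ∩ F n) ∩ closedBall x m := by
      ext q
      simp only [mem_inter_iff, mem_iUnion, ← hFU]
      constructor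
      · rintro ⟨h, n, hn⟩
        obtain ⟨m, hm⟩ := exists_nat_ge (dist q x)
        exact ⟨n, m, ⟨h, hn⟩, hm⟩
      · rintro ⟨n, m, ⟨h, hn⟩, -⟩
        exact ⟨h, n, hn⟩
    rw [h1, h2, image_iUnion]
    refine MeasurableSet.iUnion fun n => ?_
    rw [image_iUnion]
    refine MeasurableSet.iUnion fun m => ?_
    exact (((isCompact_closedBall x _).inter_left (hC.inter (hF n))).image
      continuous_fst).measurableSet
  · rw [not_nonempty_iff] at hne
    rw [h1, show C ∩ O = ∅ from Set.eq_empty_of_isEmpty _, image_empty]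
    exact MeasurableSet.empty

variable {E : Type} [MetricSpace E] [ProperSpace E] [MeasurableSpace E] [BorelSpace E] (X : Sys E)

/-- the orbit stays in the bad region -/
def stay : (N : ℕ) → (Fin N → E) → ℂ → Prop
  | 0, _, z => z ∈ D X
  | N + 1, c, z => z ∈ D X ∧ stay N (Fin.tail c) (X.f (c 0) z)

theorem tail_cont (N : ℕ) : Continuous fun c : Fin (N + 1) → E => Fin.tail c :=
  continuous_pi fun i => continuous_apply i.succ

theorem stay_set (N : ℕ) : ∃ C O : Set ((Fin N → E) × ℂ), IsClosed C ∧ IsOpen O ∧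
    {q : (Fin N → E) × ℂ | stay X N q.1 q.2} = C ∩ O := by
  induction N with
  | zero =>
    refine ⟨{q | q.2 ∈ closedBall (0 : ℂ) X.R}, {q | q.2 ∈ (Kf X)ᶜ}, ?_, ?_, rfl⟩
    · exact isClosed_closedBall.preimage continuous_snd
    · exact (isClosed_Kf X).isOpen_compl.preimage continuous_snd
  | succ N ih =>
    obtain ⟨C, O, hC, hO, h⟩ := ih
    have h0 : Continuous fun q : (Fin (N + 1) → E) × ℂ => (q.1 0, q.2) :=
      ((continuous_apply 0).comp continuous_fst).prodMk continuous_snd
    have h00 : Continuous fun q : (Fin (N + 1) → E) × ℂ => X.f (q.1 0) q.2 := X.cont.comp h0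
    have hc : Continuous fun q : (Fin (N + 1) → E) × ℂ =>
        (Fin.tail q.1, X.f (q.1 0) q.2) :=
      ((tail_cont N).comp continuous_fst).prodMk h00
    refine ⟨{q | q.2 ∈ closedBall (0 : ℂ) X.R} ∩ (fun q => (Fin.tail q.1, X.f (q.1 0) q.2)) ⁻¹' C,
      {q | q.2 ∈ (Kf X)ᶜ} ∩ (fun q => (Fin.tail q.1, X.f (q.1 0) q.2)) ⁻¹' O, ?_, ?_, ?_⟩
    · exact (isClosed_closedBall.preimage continuous_snd).inter (hC.preimage hc)
    · exact ((isClosed_Kf X).isOpen_compl.preimage continuous_snd).inter (hO.preimage hc)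
    · ext q
      have h1 := Set.ext_iff.1 h (Fin.tail q.1, X.f (q.1 0) q.2)
      simp only [mem_setOf_eq, mem_inter_iff] at h1
      simp only [mem_setOf_eq, mem_inter_iff, mem_preimage, stay, h1, D, mem_diff, mem_compl_iff]
      tauto

theorem stay_meas (N : ℕ) : MeasurableSet {q : (Fin N → E) × ℂ | stay X N q.1 q.2} := by
  obtain ⟨C, O, hC, hO, h⟩ := stay_set X N
  rw [h]
  exact hC.measurableSet.inter hO.measurableSet

theorem stay_prob (N : ℕ) : ∀ z, Measure.pi (fun _ : Fin N => X.μ) {c | stay X N c z} = b X N z := by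
  induction N with
  | zero =>
    intro z
    by_cases hz : z ∈ D X
    · have : {c : Fin 0 → E | stay X 0 c z} = univ := by
        ext c; simp [stay, hz]
      rw [this, measure_univ, b_zero_in X hz]
    · have : {c : Fin 0 → E | stay X 0 c z} = ∅ := by
        ext c; simp [stay, hz]
      rw [this, measure_empty, b_notin X 0 hz]
  | succ N ih =>
    intro z
    by_cases hz : z ∈ D X
    · have mp := measurePreserving_piFinSuccAbove (fun _ : Fin (N + 1) => X.μ) 0
      set A : Set (E × (Fin N → E)) := {p | stay X N p.2 (X.f p.1 z)} with hA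
      have hAm : MeasurableSet A := by
        have hm : Measurable fun p : E × (Fin N → E) => (p.2, X.f p.1 z) :=
          measurable_snd.prodMk ((fmeas X).comp (measurable_fst.prodMk measurable_const))
        exact hm (stay_meas X N)
      have h1 : {c : Fin (N + 1) → E | stay X (N + 1) c z} =
          (MeasurableEquiv.piFinSuccAbove (fun _ => E) 0) ⁻¹' A := by
        ext c
        simp only [mem_setOf_eq, stay, hz, true_and, mem_preimage, hA]
        rfl
      rw [h1, mp.measure_preimage hAm.nullMeasurableSet, Measure.prod_apply hAm, b_in X N hz]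
      refine lintegral_congr fun a => ?_
      rw [← ih]
      rfl
    · have : {c : Fin (N + 1) → E | stay X (N + 1) c z} = ∅ := by
        ext c; simp [stay, hz]
      rw [this, measure_empty, b_notin X _ hz]

/-- a critical value of the first function is not absorbed by the others -/
def Bad (N : ℕ) : Set (Fin (N + 1) → E) :=
  {c | ∃ u, deriv (X.f (c 0)) u = 0 ∧ stay X N (Fin.tail c) (X.f (c 0) u)}

/-- the same event in the product of the first factor and the others -/
def BadA (N : ℕ) : Set (E × (Fin N → E)) :=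
  {p | ∃ u, deriv (X.f p.1) u = 0 ∧ stay X N p.2 (X.f p.1 u)}

theorem BadA_meas (N : ℕ) : MeasurableSet (BadA X N) := by
  obtain ⟨C, O, hC, hO, h⟩ := stay_set X N
  have hc : Continuous fun q : (E × (Fin N → E)) × ℂ => (q.1.2, X.f q.1.1 q.2) :=
    (continuous_snd.comp continuous_fst).prodMk
      (X.cont.comp ((continuous_fst.comp continuous_fst).prodMk continuous_snd))
  have hd : Continuous fun q : (E × (Fin N → E)) × ℂ => deriv (X.f q.1.1) q.2 :=
    X.dcont.comp ((continuous_fst.comp continuous_fst).prodMk continuous_snd)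
  have h1 := proj_meas (C := {q : (E × (Fin N → E)) × ℂ | deriv (X.f q.1.1) q.2 = 0} ∩
    (fun q : (E × (Fin N → E)) × ℂ => (q.1.2, X.f q.1.1 q.2)) ⁻¹' C)
    (O := (fun q : (E × (Fin N → E)) × ℂ => (q.1.2, X.f q.1.1 q.2)) ⁻¹' O)
    ((isClosed_eq hd continuous_const).inter (hC.preimage hc)) (hO.preimage hc)
  convert h1 using 1
  ext p
  constructor
  · rintro ⟨u, hu, hs⟩
    have h2 : ((p.2, X.f p.1 u) : (Fin N → E) × ℂ) ∈ C ∩ O := by rw [← h]; exact hs
    exact ⟨u, ⟨hu, h2.1⟩, h2.2⟩
  · rintro ⟨u, ⟨hu, h2⟩, h3⟩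
    have h4 : ((p.2, X.f p.1 u) : (Fin N → E) × ℂ) ∈ C ∩ O := ⟨h2, h3⟩
    rw [← h] at h4
    exact ⟨u, hu, h4⟩

theorem Bad_eq (N : ℕ) :
    Bad X N = (MeasurableEquiv.piFinSuccAbove (fun _ => E) 0) ⁻¹' BadA X N := by
  ext c
  rfl

theorem Bad_meas (N : ℕ) : MeasurableSet (Bad X N) := by
  rw [Bad_eq]
  exact (MeasurableEquiv.measurable _) (BadA_meas X N)

theorem Bad_prob (N : ℕ) {B : ℝ≥0∞} (hB : ∀ z, b X N z ≤ B) :
    Measure.pi (fun _ : Fin (N + 1) => X.μ) (Bad X N) ≤ X.cn * B := by
  have mp := measurePreserving_piFinSuccAbove (fun _ : Fin (N + 1) => X.μ) 0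
  have hAm := BadA_meas X N
  set A := BadA X N with hA
  rw [Bad_eq, mp.measure_preimage hAm.nullMeasurableSet, Measure.prod_apply hAm]
  calc ∫⁻ a, Measure.pi (fun _ : Fin N => X.μ) (Prod.mk a ⁻¹' A) ∂X.μ
      ≤ ∫⁻ _, (X.cn * B : ℝ≥0∞) ∂X.μ := by
        refine lintegral_mono_ae ?_
        filter_upwards [X.S0] with a ha
        obtain ⟨s, hs, hcr⟩ := X.crit a ha
        calc Measure.pi (fun _ : Fin N => X.μ) (Prod.mk a ⁻¹' A)
            ≤ Measure.pi (fun _ : Fin N => X.μ) (⋃ u ∈ s, {c | stay X N c (X.f a u)}) := by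
              refine measure_mono ?_
              rintro c ⟨u, hu, hst⟩
              rw [mem_iUnion₂]
              exact ⟨u, hcr u hu, hst⟩
          _ ≤ ∑ u ∈ s, Measure.pi (fun _ : Fin N => X.μ) {c | stay X N c (X.f a u)} :=
              measure_biUnion_finset_le _ _
          _ ≤ ∑ _u ∈ s, B := Finset.sum_le_sum fun u _ => by rw [stay_prob]; exact hB _
          _ = s.card * B := by rw [Finset.sum_const, nsmul_eq_mul]
          _ ≤ X.cn * B := by gcongr
    _ = X.cn * B := by simp

/-- rotation of the coordinates -/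
def rot {N : ℕ} (i : Fin (N + 1)) (c : Fin (N + 1) → E) : Fin (N + 1) → E := fun k => c (k + i)

theorem rot_mp {N : ℕ} (i : Fin (N + 1)) :
    MeasurePreserving (rot i) (Measure.pi fun _ : Fin (N + 1) => X.μ)
      (Measure.pi fun _ : Fin (N + 1) => X.μ) := by
  have h := measurePreserving_piCongrLeft (fun _ : Fin (N + 1) => X.μ)
    (Equiv.addRight i).symm
  have h2 : rot i = (MeasurableEquiv.piCongrLeft (fun _ : Fin (N + 1) => E)
      (Equiv.addRight i).symm : (Fin (N + 1) → E) → (Fin (N + 1) → E)) := by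
    funext c k
    have h3 := MeasurableEquiv.piCongrLeft_apply_apply (Equiv.addRight i).symm
      (β := fun _ : Fin (N + 1) => E) c (Equiv.addRight i k)
    rw [Equiv.symm_apply_apply] at h3
    rw [h3]
    rfl
  rw [h2]
  exact h

/-- the mean weight -/
noncomputable def qw : ℝ := ∫ a, wt X a ∂X.μ

theorem wt_meas : Measurable (wt X) := Measurable.ite (G_meas X) measurable_const measurable_const

theorem wt_int : Integrable (wt X) X.μ :=
  Integrable.of_bound (wt_meas X).aestronglyMeasurable 1 (Eventually.of_forall fun a => by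
    rw [Real.norm_eq_abs, abs_of_pos (wt_pos X a)]; exact wt_le X a)

theorem qw_pos : 0 < qw X := by
  have h1 : (0 : ℝ) < 1 / (1 + st X) := by have := st_pos X; positivity
  have h2 : ∫ _, (1 / (1 + st X)) ∂X.μ ≤ ∫ a, wt X a ∂X.μ := by
    refine integral_mono (integrable_const _) (wt_int X) fun a => ?_
    show 1 / (1 + st X) ≤ wt X a
    have := st_pos X
    unfold wt
    split_ifs
    · exact le_rfl
    · rw [div_le_one (by positivity)]; linarith
  rw [integral_const, probReal_univ, one_smul] at h2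
  exact h1.trans_le h2

theorem qw_lt : qw X < 1 := by
  have h0 := st_pos X
  have h1 : ∫ a, (1 - wt X a) ∂X.μ = 1 - qw X := by
    rw [integral_sub (integrable_const _) (wt_int X), integral_const, probReal_univ, one_smul]
    rfl
  have h2 : 0 < ∫ a, (1 - wt X a) ∂X.μ := by
    rw [integral_pos_iff_support_of_nonneg (fun a => sub_nonneg.2 (wt_le X a))
      ((integrable_const _).sub (wt_int X))]
    refine (G_pos X).trans_le (measure_mono fun a ha => ?_)
    have h3 := wt_good X ha
    rw [Function.mem_support]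
    intro h4
    have h5 : wt X a = 1 := by linarith
    rw [h5] at h3
    linarith
  rw [h1] at h2
  linarith

theorem wt_tail (n : ℕ) : Measure.pi (fun _ : Fin n => X.μ)
    {c | √(qw X) ^ n ≤ ∏ k, wt X (c k)} ≤ ENNReal.ofReal (√(qw X) ^ n) := by
  have h0 := qw_pos X
  have hs : 0 < √(qw X) := Real.sqrt_pos.2 h0
  have h1 : ∫ c : Fin n → E, ∏ k, wt X (c k) ∂(Measure.pi fun _ : Fin n => X.μ) = qw X ^ n := by
    have := integral_fintype_prod_eq_prod (𝕜 := ℝ) (ι := Fin n) (E := fun _ => E)
      (μ := fun _ => X.μ) (fun _ a => wt X a)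
    rw [this, Finset.prod_const, Finset.card_univ, Fintype.card_fin]
    rfl
  have h2 := mul_meas_ge_le_integral_of_nonneg (μ := Measure.pi fun _ : Fin n => X.μ)
    (f := fun c : Fin n → E => ∏ k, wt X (c k))
    (Eventually.of_forall fun c => Finset.prod_nonneg fun k _ => (wt_pos X _).le)
    (by
      refine Integrable.of_bound (Finset.measurable_prod _ fun k _ =>
        (wt_meas X).comp (measurable_pi_apply k)).aestronglyMeasurable 1
        (Eventually.of_forall fun c => ?_)
      rw [Real.norm_eq_abs, abs_of_nonneg (Finset.prod_nonneg fun k _ => (wt_pos X _).le)]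
      exact Finset.prod_le_one (fun k _ => (wt_pos X _).le) fun k _ => wt_le X _) (√(qw X) ^ n)
  rw [h1] at h2
  rw [← ENNReal.ofReal_toReal (measure_ne_top (Measure.pi fun _ : Fin n => X.μ) _)]
  refine ENNReal.ofReal_le_ofReal ?_
  have h3 : qw X ^ n = √(qw X) ^ n * √(qw X) ^ n := by
    rw [← mul_pow, Real.mul_self_sqrt h0.le]
  rw [h3] at h2
  exact le_of_mul_le_mul_left h2 (by positivity)

end Pool.Agent.U523.RC
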