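import Mathlib

/-! Definitions for the theorem on random compositions of polynomials. -/

set_option autoImplicit false

open Polynomial Filter Topology MeasureTheory

namespace Pool.Agent.U523.RC

/-- The polynomial with the coefficients `a 0, …, a d`. -/
noncomputable def poly {d : ℕ} (a : Fin (d + 1) → ℂ) : ℂ[X] := ∑ i, C (a i) * X ^ (i : ℕ)

/-- The composition `F (n - 1) ∘ ⋯ ∘ F 1 ∘ F 0`. -/
noncomputable def compose (F : ℕ → ℂ[X]) : ℕ → ℂ[X]
  | 0 => X
  | n + 1 => (F n).comp (compose F n)

/-- `T` is hyperbolic: every critical point `c` escapes or is attracted by an attracting cycle (this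
is word for word the condition of the frozen statement `S04139`); moreover in the second case the
cycle can be chosen with period at most `M` and with a multiplier of modulus at most `lam`. -/
def HyperbolicWith (M : ℕ) (lam : ℝ) (T : ℂ[X]) : Prop :=
  ∀ c : ℂ, T.derivative.eval c = 0 →
    (Tendsto (fun k : ℕ => ‖(fun w : ℂ => T.eval w)^[k] c‖) atTop atTop ∨
      ∃ n : ℕ, 0 < n ∧ n ≤ M ∧ ∃ z : ℂ,
        (fun w : ℂ => T.eval w)^[n] z = z ∧
        ‖deriv ((fun w : ℂ => T.eval w)^[n]) z‖ < 1 ∧
        ‖deriv ((fun w : ℂ => T.eval w)^[n]) z‖ ≤ lam ∧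
        Tendsto (fun k : ℕ => (fun w : ℂ => T.eval w)^[n * k] c) atTop (nhds z))

/-- The uniform law on the disc of radius `ε` about `0`. -/
noncomputable def unif (ε : ℝ) : Measure ℂ :=
  ProbabilityTheory.cond volume (Metric.ball (0 : ℂ) ε)

/-- The sequence `t 0, …, t (n - 1), 0, 0, …`. -/
noncomputable def ext {n : ℕ} (t : Fin n → ℂ) (k : ℕ) : ℂ := if h : k < n then t ⟨k, h⟩ else 0

end Pool.Agent.U523.RC
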