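import Pool.Agent.U523.RC.C

/-! Random iteration: the compositions are hyperbolic with large probability. -/

set_option autoImplicit false
set_option linter.unusedSectionVars false
set_option linter.deprecated false

open MeasureTheory Filter Topology Metric Set
open scoped ENNReal

namespace Pool.Agent.U523.RC

variable {E : Type} [MetricSpace E] [ProperSpace E] [MeasurableSpace E] [BorelSpace E] (X : Sys E)

/-- periodic continuation -/
def per {N : ℕ} (c : Fin (N + 1) → E) : ℕ → E := fun k => c (Fin.ofNat (N + 1) k)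

theorem per_per {N : ℕ} (c : Fin (N + 1) → E) (k : ℕ) : per c (k + (N + 1)) = per c k := by
  show c _ = c _
  congr 1
  ext
  simp [Fin.ofNat]

theorem per_val {N : ℕ} (c : Fin (N + 1) → E) (k : Fin (N + 1)) : per c k.val = c k := by
  show c _ = c _
  congr 1
  ext
  simp [Fin.ofNat, Nat.mod_eq_of_lt k.2]

theorem rot_zero {N : ℕ} (c : Fin (N + 1) → E) (i : Fin (N + 1)) : rot i c 0 = per c i.val := by
  rw [per_val]
  show c (0 + i) = c i
  rw [zero_add]

theorem rot_tail {N : ℕ} (c : Fin (N + 1) → E) (i : Fin (N + 1)) (k : ℕ) (hk : k < N) :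
    Fin.tail (rot i c) ⟨k, hk⟩ = sh (i.val + 1) (per c) k := by
  show c (Fin.succ ⟨k, hk⟩ + i) = c (Fin.ofNat (N + 1) (i.val + 1 + k))
  congr 1
  ext
  simp only [Fin.val_add, Fin.succ_mk, Fin.ofNat]
  congr 1
  omega

theorem per_mem {N : ℕ} {c : Fin (N + 1) → E} (h : ∀ k, c k ∈ X.S) (k : ℕ) : per c k ∈ X.S := h _

theorem stay_of (N : ℕ) : ∀ (c : Fin N → E) (α : ℕ → E), (∀ k (hk : k < N), α k = c ⟨k, hk⟩) →
    ∀ z, (∀ k ≤ N, run X α k z ∈ D X) → stay X N c z := by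
  induction N with
  | zero => intro c α _ z h; exact h 0 le_rfl
  | succ N ih =>
    intro c α hα z h
    refine ⟨h 0 (Nat.zero_le _), ih _ (sh 1 α) (fun k hk => ?_) _ (fun k hk => ?_)⟩
    · show α (1 + k) = c (Fin.succ ⟨k, hk⟩)
      rw [hα (1 + k) (by omega)]
      congr 1
      ext
      simp [add_comm]
    · have h1 := h (1 + k) (by omega)
      rw [run_add] at h1
      have h2 : run X α 1 z = X.f (c 0) z := by
        show X.f (α 0) z = _
        rw [hα 0 (by omega)]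
        rfl
      rwa [h2] at h1

theorem run_grow {α : ℕ → E} (hα : ∀ k, α k ∈ X.S) {z : ℂ} (hz : X.R < ‖z‖) (m : ℕ) :
    2 ^ m * ‖z‖ ≤ ‖run X α m z‖ := by
  induction m with
  | zero => simp [run]
  | succ m ih =>
    have h0 : 0 < ‖z‖ := X.hR.trans hz
    have h1 : ‖z‖ ≤ 2 ^ m * ‖z‖ := le_mul_of_one_le_left h0.le (one_le_pow₀ (by norm_num))
    have h2 : X.R ≤ ‖run X α m z‖ := by linarith
    have h3 := X.out (α m) (hα m) _ h2
    show 2 ^ (m + 1) * ‖z‖ ≤ ‖X.f (α m) (run X α m z)‖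
    rw [pow_succ]
    linarith

theorem crit_run (α : ℕ → E) (n : ℕ) {u : ℂ} (h : deriv (run X α n) u = 0) :
    ∃ i < n, deriv (X.f (α i)) (run X α i u) = 0 := by
  induction n with
  | zero =>
    have : deriv (run X α 0) u = 1 := deriv_id u
    rw [this] at h
    exact absurd h one_ne_zero
  | succ n ih =>
    rw [run_deriv, mul_eq_zero] at h
    rcases h with h | h
    · exact ⟨n, n.lt_succ_self, h⟩
    · obtain ⟨i, hi, h'⟩ := ih h
      exact ⟨i, by omega, h'⟩

theorem run_iter {α : ℕ → E} {n : ℕ} (hper : ∀ k, α (k + n) = α k) (k : ℕ) (z : ℂ) :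
    (run X α n)^[k] z = run X α (n * k) z := by
  induction k with
  | zero => rfl
  | succ k ih =>
    have h1 : sh (n * k) α = α := by
      funext i
      show α (n * k + i) = α i
      clear ih
      induction k with
      | zero => simp
      | succ k ih => rw [Nat.mul_succ, show n * k + n + i = (n * k + i) + n by ring, hper, ih]
    rw [Function.iterate_succ_apply', ih, Nat.mul_succ, run_add, h1]

/-- every critical point of the composition is captured after two turns -/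
theorem captured {N : ℕ} {c : Fin (N + 1) → E} (hS : ∀ k, c k ∈ X.S)
    (hB : ∀ i, rot i c ∉ Bad X N) {u : ℂ} (hu : deriv (run X (per c) (N + 1)) u = 0) :
    run X (per c) (2 * (N + 1)) u ∈ Kf X ∨ X.R < ‖run X (per c) (2 * (N + 1)) u‖ := by
  obtain ⟨i, hi, h⟩ := crit_run X _ _ hu
  have h1 := hB ⟨i, hi⟩
  have h2 : ¬ stay X N (Fin.tail (rot ⟨i, hi⟩ c)) (run X (per c) (i + 1) u) := by
    intro hst
    refine h1 ⟨run X (per c) i u, ?_, ?_⟩
    · rw [rot_zero]; exact h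
    · rw [rot_zero]; exact hst
  have h3 : ∃ k ≤ N, run X (sh (i + 1) (per c)) k (run X (per c) (i + 1) u) ∉ D X := by
    by_contra hcon
    push Not at hcon
    exact h2 (stay_of X N _ (sh (i + 1) (per c)) (fun k hk => (rot_tail c ⟨i, hi⟩ k hk).symm) _
      hcon)
  obtain ⟨k, hk, hkD⟩ := h3
  rw [← run_add] at hkD
  set t := i + 1 + k with ht
  have hα : ∀ j, sh t (per c) j ∈ X.S := fun j => per_mem X hS _
  have h4 : run X (per c) (2 * (N + 1)) u =
      run X (sh t (per c)) (2 * (N + 1) - t) (run X (per c) t u) := by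
    rw [← run_add]
    congr 1
    omega
  rw [h4]
  by_cases hK : run X (per c) t u ∈ Kf X
  · exact Or.inl (run_Kf X hα _ hK)
  · have h5 : X.R < ‖run X (per c) t u‖ := by
      by_contra h5
      exact hkD ⟨by rw [mem_closedBall_zero_iff]; exact not_lt.1 h5, hK⟩
    right
    have h6 := run_grow X hα h5 (2 * (N + 1) - t)
    have h7 : ‖run X (per c) t u‖ ≤ 2 ^ (2 * (N + 1) - t) * ‖run X (per c) t u‖ :=
      le_mul_of_one_le_left (norm_nonneg _) (one_le_pow₀ (by norm_num))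
    linarith

/-- every critical point escapes or is attracted -/
def Hyp (T : ℂ → ℂ) (M : ℕ) (lam : ℝ) : Prop :=
  ∀ u, deriv T u = 0 → Tendsto (fun k : ℕ => ‖T^[k] u‖) atTop atTop ∨ Att T M lam u

theorem det_main : ∃ M : ℕ, ∀ (N : ℕ) (c : Fin (N + 1) → E), (∀ k, c k ∈ X.S) →
    (∀ i, rot i c ∉ Bad X N) → (∃ k, c k ∈ G X) → ∀ lam : ℝ, lam ≤ 1 / 4 →
    8 * X.R / X.ε * ∏ k, wt X (c k) ≤ lam → Hyp (run X (per c) (N + 1)) M lam := by
  obtain ⟨M, hM⟩ := Kf_att X
  refine ⟨M, fun N c hS hB hG lam hl hb u hu => ?_⟩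
  have hper : ∀ k, per c (k + (N + 1)) = per c k := per_per c
  have hα : ∀ k, per c k ∈ X.S := per_mem X hS
  have hit := run_iter X hper
  have hcap := captured X hS hB hu
  rcases hcap with hK | hR
  · right
    obtain ⟨k, hk⟩ := hG
    have h1 := hM (per c) (N + 1) hα hper ⟨k.val, k.2, by rw [per_val]; exact hk⟩ lam hl (by
      rw [Finset.prod_range]
      simp only [per_val]
      exact hb) _ hK
    rw [mul_comm, ← hit] at h1
    exact att_back_it (run_diff X _ _) 2 h1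
  · left
    rw [← tendsto_add_atTop_iff_nat 2]
    have h1 : ∀ k : ℕ, 2 ^ k * X.R ≤ ‖(run X (per c) (N + 1))^[k + 2] u‖ := by
      intro k
      rw [Function.iterate_add_apply, hit k, hit 2, mul_comm (N + 1) 2]
      refine le_trans ?_ (run_grow X hα hR _)
      have h2 : (2 : ℝ) ^ k ≤ 2 ^ ((N + 1) * k) :=
        pow_le_pow_right₀ (by norm_num) (Nat.le_mul_of_pos_left k (by omega))
      exact mul_le_mul h2 hR.le X.hR.le (by positivity)
    exact tendsto_atTop_mono h1 ((tendsto_pow_atTop_atTop_of_one_lt (by norm_num)).atTop_mul_const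
      X.hR)

theorem exists_bound {ρ θ : ℝ} (h0 : 0 < ρ) (h1 : ρ < θ) :
    ∃ C : ℝ, 0 < C ∧ ∀ n : ℕ, (n : ℝ) * ρ ^ n ≤ C * θ ^ n := by
  have hθ : 0 < θ := h0.trans h1
  have hq : ρ / θ < 1 := by rw [div_lt_one hθ]; exact h1
  have ht := tendsto_self_mul_const_pow_of_lt_one (r := ρ / θ) (by positivity) hq
  obtain ⟨C, hC⟩ := ht.bddAbove_range
  refine ⟨max C 1, lt_of_lt_of_le one_pos (le_max_right _ _), fun n => ?_⟩
  have h2 : (n : ℝ) * (ρ / θ) ^ n ≤ max C 1 := (hC ⟨n, rfl⟩).trans (le_max_left _ _)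
  rw [div_pow, mul_div_assoc', div_le_iff₀ (by positivity)] at h2
  exact h2

/-- **The main theorem**, for the product measure. -/
theorem main : ∃ (K θ : ℝ) (M : ℕ), 0 < K ∧ 0 < θ ∧ θ < 1 ∧ ∀ N : ℕ,
    Measure.pi (fun _ : Fin (N + 1) => X.μ)
      {c | ¬ ∃ lam : ℝ, lam < 1 ∧ lam ≤ K * θ ^ (N + 1) ∧ Hyp (run X (per c) (N + 1)) M lam} ≤
    ENNReal.ofReal (K * θ ^ (N + 1)) := by
  obtain ⟨K₁, θ₁, hK₁, hθ₁, hθ₁', hb⟩ := absorb_exp X
  obtain ⟨M, hM⟩ := det_main X
  have hq0 := qw_pos X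
  have hq1 := qw_lt X
  set r := √(qw X) with hr
  have hr0 : 0 < r := Real.sqrt_pos.2 hq0
  have hr1 : r < 1 := by
    rw [hr, Real.sqrt_lt' one_pos, one_pow]; exact hq1
  set ρ := max r θ₁ with hρ
  have hρ0 : 0 < ρ := hr0.trans_le (le_max_left _ _)
  have hρ1 : ρ < 1 := max_lt hr1 hθ₁'
  set θ := (1 + ρ) / 2 with hθ
  have hθρ : ρ < θ := by rw [hθ]; linarith
  have hθ0 : 0 < θ := hρ0.trans hθρ
  have hθ1 : θ < 1 := by rw [hθ]; linarith
  obtain ⟨C, hC, hCb⟩ := exists_bound hρ0 hθρ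
  have hR := X.hR
  have hε := X.hε
  set K := max (X.cn * K₁ * C / ρ + 1) (32 * X.R / X.ε) with hK
  have hK0 : 0 < K := lt_of_lt_of_le (by positivity) (le_max_right _ _)
  refine ⟨K, θ, M, hK0, hθ0, hθ1, fun N => ?_⟩
  by_cases hbig : 1 ≤ K * θ ^ (N + 1)
  · refine (prob_le_one).trans ?_
    rw [← ENNReal.ofReal_one]
    exact ENNReal.ofReal_le_ofReal hbig
  push Not at hbig
  set P := Measure.pi (fun _ : Fin (N + 1) => X.μ) with hP
  have hrθ : r ^ (N + 1) ≤ θ ^ (N + 1) :=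
    pow_le_pow_left₀ hr0.le ((le_max_left _ _).trans hθρ.le) _
  have hsub : {c | ¬ ∃ lam : ℝ, lam < 1 ∧ lam ≤ K * θ ^ (N + 1) ∧
      Hyp (run X (per c) (N + 1)) M lam} ⊆
      ((⋃ i : Fin (N + 1), rot i ⁻¹' Bad X N) ∪ {c | r ^ (N + 1) ≤ ∏ k, wt X (c k)}) ∪
        (⋃ i : Fin (N + 1), {c | c i ∉ X.S}) := by
    intro c hc
    by_contra hcon
    simp only [mem_union, mem_iUnion, mem_preimage, mem_setOf_eq, not_or, not_exists,
      not_not, not_le] at hcon
    obtain ⟨⟨h1, h2⟩, h3⟩ := hcon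
    apply hc
    have h4 : 8 * X.R / X.ε * ∏ k, wt X (c k) ≤ 1 / 4 * (K * θ ^ (N + 1)) := by
      calc 8 * X.R / X.ε * ∏ k, wt X (c k) ≤ 8 * X.R / X.ε * θ ^ (N + 1) := by
            have := h2.le.trans hrθ
            gcongr
        _ = 1 / 4 * (32 * X.R / X.ε * θ ^ (N + 1)) := by ring
        _ ≤ 1 / 4 * (K * θ ^ (N + 1)) := by
            have := le_max_right (X.cn * K₁ * C / ρ + 1) (32 * X.R / X.ε)
            gcongr
    have h5 : 0 < K * θ ^ (N + 1) := by positivity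
    refine ⟨8 * X.R / X.ε * ∏ k, wt X (c k), by linarith, by linarith,
      hM N c h3 h1 ?_ _ (by linarith) le_rfl⟩
    by_contra hg
    push Not at hg
    have h6 : ∏ k, wt X (c k) = 1 := Finset.prod_eq_one fun k _ => wt_bad X (hg k)
    rw [h6] at h2
    have h7 : r ^ (N + 1) ≤ 1 := pow_le_one₀ hr0.le hr1.le
    linarith
  have hB1 : P (⋃ i : Fin (N + 1), rot i ⁻¹' Bad X N) ≤
      ENNReal.ofReal (X.cn * K₁ * C / ρ * θ ^ (N + 1)) := by
    calc P (⋃ i : Fin (N + 1), rot i ⁻¹' Bad X N)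
        ≤ ∑ i : Fin (N + 1), P (rot i ⁻¹' Bad X N) := measure_iUnion_fintype_le _ _
      _ ≤ ∑ _i : Fin (N + 1), (X.cn : ℝ≥0∞) * ENNReal.ofReal (K₁ * θ₁ ^ N) := by
          refine Finset.sum_le_sum fun i _ => ?_
          rw [(rot_mp X i).measure_preimage (Bad_meas X N).nullMeasurableSet]
          exact Bad_prob X N (hb N)
      _ = ENNReal.ofReal ((N + 1 : ℝ) * (X.cn * (K₁ * θ₁ ^ N))) := by
          rw [Finset.sum_const, Finset.card_univ, Fintype.card_fin, nsmul_eq_mul,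
            ENNReal.ofReal_mul (by positivity : (0 : ℝ) ≤ (N + 1 : ℝ)),
            ENNReal.ofReal_mul (Nat.cast_nonneg _ : (0 : ℝ) ≤ (X.cn : ℝ)),
            ENNReal.ofReal_natCast]
          congr 1
          rw [← Nat.cast_succ, ENNReal.ofReal_natCast]
      _ ≤ ENNReal.ofReal (X.cn * K₁ * C / ρ * θ ^ (N + 1)) := by
          refine ENNReal.ofReal_le_ofReal ?_
          have h1 : θ₁ ^ N ≤ ρ ^ N := pow_le_pow_left₀ hθ₁.le (le_max_right _ _) _
          have h2 := hCb (N + 1)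
          push_cast at h2
          calc (N + 1 : ℝ) * (X.cn * (K₁ * θ₁ ^ N)) ≤ (N + 1 : ℝ) * (X.cn * (K₁ * ρ ^ N)) := by
                gcongr
            _ = X.cn * K₁ / ρ * ((N + 1 : ℝ) * ρ ^ (N + 1)) := by
                rw [pow_succ]; field_simp
            _ ≤ X.cn * K₁ / ρ * (C * θ ^ (N + 1)) := by gcongr
            _ = X.cn * K₁ * C / ρ * θ ^ (N + 1) := by ring
  have hB2 : P {c | r ^ (N + 1) ≤ ∏ k, wt X (c k)} ≤ ENNReal.ofReal (θ ^ (N + 1)) :=
    (wt_tail X (N + 1)).trans (ENNReal.ofReal_le_ofReal hrθ)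
  have hB3 : P (⋃ i : Fin (N + 1), {c | c i ∉ X.S}) = 0 := by
    rw [measure_iUnion_null_iff]
    intro i
    exact (measurePreserving_eval (fun _ : Fin (N + 1) => X.μ) i).quasiMeasurePreserving.ae X.S0
  calc P _ ≤ P _ := measure_mono hsub
    _ ≤ (P (⋃ i : Fin (N + 1), rot i ⁻¹' Bad X N) + P {c | r ^ (N + 1) ≤ ∏ k, wt X (c k)}) +
        P (⋃ i : Fin (N + 1), {c | c i ∉ X.S}) :=
        (measure_union_le _ _).trans (by gcongr; exact measure_union_le _ _)
    _ ≤ (ENNReal.ofReal (X.cn * K₁ * C / ρ * θ ^ (N + 1)) + ENNReal.ofReal (θ ^ (N + 1))) + 0 := by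
        rw [hB3]
        gcongr
    _ = ENNReal.ofReal ((X.cn * K₁ * C / ρ + 1) * θ ^ (N + 1)) := by
        rw [add_zero, ← ENNReal.ofReal_add (by positivity) (by positivity)]
        congr 1
        ring
    _ ≤ ENNReal.ofReal (K * θ ^ (N + 1)) := by
        refine ENNReal.ofReal_le_ofReal ?_
        have := le_max_left (X.cn * K₁ * C / ρ + 1) (32 * X.R / X.ε)
        gcongr

end Pool.Agent.U523.RC
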