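import Pool.Agent.U523.RC.F
import Pool.Agent.U523.RC.Defs

/-! Random compositions of polynomials: the concrete systems. -/

set_option autoImplicit false
set_option linter.unusedSectionVars false
set_option linter.deprecated false

open MeasureTheory Filter Topology Metric Set Polynomial
open scoped ENNReal

namespace Pool.Agent.U523.RC

theorem compose_eval {E : Type} [MetricSpace E] [ProperSpace E] [MeasurableSpace E] [BorelSpace E]
    (Y : Sys E) (g : E → ℂ[X]) (hg : ∀ a z, (g a).eval z = Y.f a z) (F : ℕ → ℂ[X]) (α : ℕ → E)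
    (n : ℕ) (h : ∀ k < n, F k = g (α k)) (z : ℂ) : (compose F n).eval z = run Y α n z := by
  induction n with
  | zero => simp [compose, run]
  | succ n ih =>
    show ((F n).comp (compose F n)).eval z = Y.f (α n) (run Y α n z)
    rw [eval_comp, ih (fun k hk => h k (by omega)), h n n.lt_succ_self, hg]

theorem hyp_of {E : Type} [MetricSpace E] [ProperSpace E] [MeasurableSpace E] [BorelSpace E]
    (Y : Sys E) (g : E → ℂ[X]) (hg : ∀ a z, (g a).eval z = Y.f a z) {N : ℕ}
    (c : Fin (N + 1) → E) {M : ℕ} {K : ℝ}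
    (h : ∃ lam : ℝ, lam < 1 ∧ lam ≤ K ∧ Hyp (run Y (per c) (N + 1)) M lam) (F : ℕ → ℂ[X])
    (hF : ∀ k (hk : k < N + 1), F k = g (c ⟨k, hk⟩)) : HyperbolicWith M K (compose F (N + 1)) := by
  obtain ⟨lam, h1, h2, h3⟩ := h
  have e : (fun w : ℂ => (compose F (N + 1)).eval w) = run Y (per c) (N + 1) := by
    funext w
    refine compose_eval Y g hg F (per c) (N + 1) (fun k hk => ?_) w
    rw [hF k hk]
    exact congrArg g (per_val c ⟨k, hk⟩).symm
  intro u hu
  have hu' : deriv (run Y (per c) (N + 1)) u = 0 := by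
    rw [← e, Polynomial.deriv]; exact hu
  rw [e]
  rcases h3 u hu' with h4 | ⟨m, hm, hM, z, hz, hd, ht⟩
  · exact Or.inl h4
  · exact Or.inr ⟨m, hm, hM, z, hz, hd.trans_lt h1, hd.trans h2, ht⟩

theorem hyp_zero (M : ℕ) (K : ℝ) (F : ℕ → ℂ[X]) : HyperbolicWith M K (compose F 0) := by
  intro c hc
  simp [compose] at hc

theorem compose_degree {d : ℕ} {F : ℕ → ℂ[X]} {n : ℕ} (h : ∀ k < n, (F k).natDegree = d) :
    (compose F n).natDegree = d ^ n := by
  induction n with
  | zero => simp [compose]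
  | succ n ih =>
    show ((F n).comp (compose F n)).natDegree = d ^ (n + 1)
    rw [natDegree_comp, ih (fun k hk => h k (by omega)), h n n.lt_succ_self, pow_succ, mul_comm]

theorem poly_eval {d : ℕ} (a : Fin (d + 1) → ℂ) (z : ℂ) :
    (poly a).eval z = ∑ i, a i * z ^ (i : ℕ) := by
  simp [poly, eval_finset_sum]

theorem poly_coeff_last {d : ℕ} (a : Fin (d + 1) → ℂ) : (poly a).coeff d = a (Fin.last d) := by
  rw [poly, finset_sum_coeff, Finset.sum_eq_single (Fin.last d)]
  · simp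
  · intro i _ hi
    rw [coeff_C_mul, coeff_X_pow, if_neg, mul_zero]
    intro h
    apply hi
    ext
    simp [h]
  · simp

theorem poly_degree_le {d : ℕ} (a : Fin (d + 1) → ℂ) : (poly a).natDegree ≤ d := by
  refine natDegree_sum_le_of_forall_le _ _ fun i _ => ?_
  exact (natDegree_C_mul_X_pow_le _ _).trans (by omega)

theorem poly_degree {d : ℕ} {a : Fin (d + 1) → ℂ} (h : a (Fin.last d) ≠ 0) :
    (poly a).natDegree = d :=
  le_antisymm (poly_degree_le a) (le_natDegree_of_ne_zero (by rw [poly_coeff_last]; exact h))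

theorem poly_deriv_eval {d : ℕ} (a : Fin (d + 1) → ℂ) (z : ℂ) :
    (poly a).derivative.eval z = ∑ i, a i * ((i : ℕ) * z ^ ((i : ℕ) - 1)) := by
  simp [poly, eval_finset_sum, derivative_X_pow]

theorem poly_add_single {d : ℕ} (a : Fin (d + 1) → ℂ) (t z : ℂ) :
    (poly (a + Pi.single 0 t)).eval z = (poly a).eval z + t := by
  rw [poly_eval, poly_eval]
  have h1 : ∀ i : Fin (d + 1), (a + (Pi.single 0 t : Fin (d + 1) → ℂ)) i * z ^ (i : ℕ) =
      a i * z ^ (i : ℕ) + (if i = 0 then t else 0) := by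
    intro i
    by_cases h : i = 0
    · subst h
      simp
    · simp [h]
  simp only [h1, Finset.sum_add_distrib]
  simp

/-- common escape radius -/
theorem exists_radius {d : ℕ} (hd : 2 ≤ d) {K : Set (Fin (d + 1) → ℂ)} (hK : IsCompact K)
    (hl : ∀ a ∈ K, a (Fin.last d) ≠ 0) :
    ∃ R : ℝ, 0 < R ∧ ∀ a ∈ K, ∀ z : ℂ, R ≤ ‖z‖ → 2 * ‖z‖ ≤ ‖(poly a).eval z‖ := by
  obtain ⟨A, hA0, hA⟩ : ∃ A : ℝ, 0 < A ∧ ∀ a ∈ K, ‖a‖ ≤ A := by
    obtain ⟨A, hA⟩ := hK.isBounded.exists_norm_le
    exact ⟨max A 1, lt_of_lt_of_le one_pos (le_max_right _ _), fun a ha =>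
      (hA a ha).trans (le_max_left _ _)⟩
  obtain ⟨m, hm0, hm⟩ : ∃ m : ℝ, 0 < m ∧ ∀ a ∈ K, m ≤ ‖a (Fin.last d)‖ := by
    rcases K.eq_empty_or_nonempty with rfl | hne
    · exact ⟨1, one_pos, fun a ha => ha.elim⟩
    · obtain ⟨a₁, ha₁, hmin⟩ := hK.exists_isMinOn hne
        (f := fun a => ‖a (Fin.last d)‖) ((continuous_apply _).norm.continuousOn)
      exact ⟨‖a₁ (Fin.last d)‖, norm_pos_iff.2 (hl _ ha₁), fun a ha => hmin ha⟩
  refine ⟨max 1 ((2 + d * A) / m), lt_of_lt_of_le one_pos (le_max_left _ _), fun a ha z hz => ?_⟩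
  have hz1 : 1 ≤ ‖z‖ := (le_max_left _ _).trans hz
  have hz2 : (2 + d * A) / m ≤ ‖z‖ := (le_max_right _ _).trans hz
  rw [div_le_iff₀ hm0] at hz2
  obtain ⟨e, rfl⟩ : ∃ e, d = e + 1 := ⟨d - 1, by omega⟩
  rw [poly_eval, Fin.sum_univ_castSucc]
  have h1 : ‖∑ i : Fin (e + 1), a (Fin.castSucc i) * z ^ ((Fin.castSucc i : Fin (e + 2)) : ℕ)‖ ≤
      (e + 1 : ℕ) * A * ‖z‖ ^ e := by
    calc ‖∑ i : Fin (e + 1), a (Fin.castSucc i) * z ^ ((Fin.castSucc i : Fin (e + 2)) : ℕ)‖
        ≤ ∑ i : Fin (e + 1), ‖a (Fin.castSucc i) * z ^ ((Fin.castSucc i : Fin (e + 2)) : ℕ)‖ :=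
          norm_sum_le _ _
      _ ≤ ∑ _i : Fin (e + 1), A * ‖z‖ ^ e := by
          refine Finset.sum_le_sum fun i _ => ?_
          rw [norm_mul, norm_pow]
          have h2 : ‖a (Fin.castSucc i)‖ ≤ A := (norm_le_pi_norm a _).trans (hA a ha)
          have h3 : ‖z‖ ^ ((Fin.castSucc i : Fin (e + 2)) : ℕ) ≤ ‖z‖ ^ e :=
            pow_le_pow_right₀ hz1 (by have := i.2; simp; omega)
          exact mul_le_mul h2 h3 (by positivity) hA0.le
      _ = (e + 1 : ℕ) * A * ‖z‖ ^ e := by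
          rw [Finset.sum_const, Finset.card_univ, Fintype.card_fin, nsmul_eq_mul]
          ring
  have h4 : m * ‖z‖ ^ (e + 1) ≤ ‖a (Fin.last (e + 1)) * z ^ ((Fin.last (e + 1) : Fin (e + 2)) : ℕ)‖ := by
    rw [norm_mul, norm_pow, Fin.val_last]
    exact mul_le_mul_of_nonneg_right (hm a ha) (by positivity)
  have h5 := norm_sub_le_norm_add
    (a (Fin.last (e + 1)) * z ^ ((Fin.last (e + 1) : Fin (e + 2)) : ℕ))
    (∑ i : Fin (e + 1), a (Fin.castSucc i) * z ^ ((Fin.castSucc i : Fin (e + 2)) : ℕ))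
  rw [add_comm (∑ i : Fin (e + 1), a (Fin.castSucc i) * z ^ ((Fin.castSucc i : Fin (e + 2)) : ℕ))]
  have h6 : ‖z‖ ≤ ‖z‖ ^ e := by
    calc ‖z‖ = ‖z‖ ^ 1 := (pow_one _).symm
      _ ≤ ‖z‖ ^ e := pow_le_pow_right₀ hz1 (by omega)
  have h7 : 2 * ‖z‖ ≤ 2 * ‖z‖ ^ e := by linarith
  have h8 : (2 + (e + 1 : ℕ) * A) * ‖z‖ ^ e ≤ m * ‖z‖ ^ (e + 1) := by
    rw [pow_succ]
    have : (0 : ℝ) < ‖z‖ ^ e := by positivity
    nlinarith
  linarith

theorem crit_count {T : ℂ[X]} (hT : 1 ≤ T.natDegree) :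
    ∃ s : Finset ℂ, s.card ≤ T.natDegree ∧ ∀ u, T.derivative.eval u = 0 → u ∈ s := by
  have h0 : T.derivative ≠ 0 := by
    intro h
    have := natDegree_eq_zero_of_derivative_eq_zero h
    omega
  refine ⟨T.derivative.roots.toFinset, ?_, fun u hu => ?_⟩
  · calc T.derivative.roots.toFinset.card ≤ Multiset.card T.derivative.roots :=
          Multiset.toFinset_card_le _
      _ ≤ T.derivative.natDegree := card_roots' _
      _ ≤ T.natDegree - 1 := natDegree_derivative_le _
      _ ≤ T.natDegree := Nat.sub_le _ _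
  · rw [Multiset.mem_toFinset, mem_roots h0]
    exact hu

theorem deriv_poly (T : ℂ[X]) (u : ℂ) : deriv (fun w => T.eval w) u = T.derivative.eval u :=
  Polynomial.deriv T

/-- the system of random polynomials -/
noncomputable def sysA {d : ℕ} (hd : 2 ≤ d) (μ : Measure (Fin (d + 1) → ℂ))
    (hμ : IsProbabilityMeasure μ) (hc : IsCompact μ.support)
    (hl : ∀ a ∈ μ.support, a (Fin.last d) ≠ 0) (a₀ : Fin (d + 1) → ℂ) (ε : ℝ) (hε : 0 < ε)
    (hs : ∀ t : ℂ, ‖t‖ < ε → a₀ + Pi.single 0 t ∈ μ.support) : Sys (Fin (d + 1) → ℂ) where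
  f a z := (poly a).eval z
  cont := by
    simp only [poly_eval]
    fun_prop
  diff a := (poly a).differentiable
  dcont := by
    simp only [deriv_poly, poly_deriv_eval]
    fun_prop
  μ := μ
  prob := hμ
  S := μ.support
  hS a ha r hr := (Measure.mem_support_iff_forall a).1 ha _ (ball_mem_nhds a hr)
  S0 := Measure.support_mem_ae
  R := (exists_radius hd hc hl).choose
  hR := (exists_radius hd hc hl).choose_spec.1
  out := (exists_radius hd hc hl).choose_spec.2
  cn := d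
  crit a ha := by
    have h := crit_count (T := poly a) (by rw [poly_degree (hl a ha)]; omega)
    rw [poly_degree (hl a ha)] at h
    obtain ⟨s, hs, h⟩ := h
    exact ⟨s, hs, fun u hu => h u (by rw [← deriv_poly]; exact hu)⟩
  a0 := a₀
  a0S := by
    have := hs 0 (by rw [norm_zero]; exact hε)
    rwa [Pi.single_zero, add_zero] at this
  ε := ε
  hε := hε
  disc t ht := ⟨_, hs t ht, fun z => poly_add_single a₀ t z⟩

theorem unif_prob {ε : ℝ} (hε : 0 < ε) : IsProbabilityMeasure (unif ε) :=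
  ProbabilityTheory.cond_isProbabilityMeasure_of_finite
    (measure_ball_pos volume _ hε).ne' measure_ball_lt_top.ne

/-- escape radius of the translates of a polynomial -/
theorem exists_radius_trans {T : ℂ[X]} (hT : 2 ≤ T.natDegree) (ε : ℝ) :
    ∃ R : ℝ, 0 < R ∧ ∀ t ∈ ball (0 : ℂ) ε, ∀ z : ℂ, R ≤ ‖z‖ → 2 * ‖z‖ ≤ ‖(T + C t).eval z‖ := by
  have h1 : Tendsto (fun z : ℂ => ‖T.eval z‖ - 2 * ‖z‖) (comap norm atTop) atTop := by
    have hQ : T.divX.natDegree = T.natDegree - 1 := natDegree_divX_eq_natDegree_tsub_one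
    have h2 : Tendsto (fun z : ℂ => ‖T.divX.eval z‖) (comap norm atTop) atTop :=
      tendsto_norm_atTop _ (natDegree_pos_iff_degree_pos.1 (by omega)) tendsto_comap
    have h3 : ∀ᶠ z : ℂ in comap norm atTop, ‖z‖ - ‖T.coeff 0‖ ≤ ‖T.eval z‖ - 2 * ‖z‖ := by
      filter_upwards [h2.eventually_ge_atTop 3] with z hz
      have h4 : T.eval z = T.divX.eval z * z + T.coeff 0 := by
        conv_lhs => rw [← divX_mul_X_add T]
        simp
      have h5 := norm_sub_le_norm_add (T.divX.eval z * z) (T.coeff 0)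
      rw [h4]
      rw [norm_mul] at h5
      have h6 : 3 * ‖z‖ ≤ ‖T.divX.eval z‖ * ‖z‖ := mul_le_mul_of_nonneg_right hz (norm_nonneg _)
      linarith
    refine tendsto_atTop_mono' _ h3 ?_
    exact tendsto_atTop_add_const_right _ _ tendsto_comap
  have h2 := h1.eventually_ge_atTop ε
  rw [eventually_comap] at h2
  obtain ⟨R, hR⟩ := eventually_atTop.1 h2
  refine ⟨max R 1, lt_of_lt_of_le one_pos (le_max_right _ _), fun t ht z hz => ?_⟩
  have h3 := hR ‖z‖ ((le_max_left _ _).trans hz) z rfl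
  rw [mem_ball_zero_iff] at ht
  have h4 := norm_sub_le_norm_add (T.eval z) t
  rw [eval_add, eval_C]
  linarith

/-- the system of the translates of one polynomial -/
noncomputable def sysB {T : ℂ[X]} (hT : 2 ≤ T.natDegree) (ε : ℝ) (hε : 0 < ε) : Sys ℂ where
  f t z := (T + C t).eval z
  cont := by
    simp only [eval_add, eval_C]
    exact (T.continuous.comp continuous_snd).add continuous_fst
  diff t := (T + C t).differentiable
  dcont := by
    simp only [deriv_poly, derivative_add, derivative_C, add_zero]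
    exact T.derivative.continuous.comp continuous_snd
  μ := unif ε
  prob := unif_prob hε
  S := ball 0 ε
  hS t ht r hr := by
    unfold unif
    rw [ProbabilityTheory.cond_apply measurableSet_ball]
    refine ENNReal.mul_pos (ENNReal.inv_ne_zero.2 measure_ball_lt_top.ne) ?_
    refine (IsOpen.measure_pos volume (isOpen_ball.inter isOpen_ball) ⟨t, ht, ?_⟩).ne'
    exact mem_ball_self hr
  S0 := ProbabilityTheory.ae_cond_mem measurableSet_ball
  R := (exists_radius_trans hT ε).choose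
  hR := (exists_radius_trans hT ε).choose_spec.1
  out := (exists_radius_trans hT ε).choose_spec.2
  cn := T.natDegree
  crit t _ := by
    have h1 : (T + C t).natDegree = T.natDegree := natDegree_add_C
    have h := crit_count (T := T + C t) (by rw [h1]; omega)
    rw [h1] at h
    obtain ⟨s, hs, h⟩ := h
    exact ⟨s, hs, fun u hu => h u (by rw [← deriv_poly]; exact hu)⟩
  a0 := 0
  a0S := mem_ball_self hε
  ε := ε
  hε := hε
  disc t ht := ⟨t, by rw [mem_ball_zero_iff]; exact ht, fun z => by simp⟩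

end Pool.Agent.U523.RC
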