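import Pool.Agent.U523.RC.P

/-! Random compositions of polynomials: the final forms. -/

set_option autoImplicit false
set_option linter.unusedSectionVars false
set_option linter.deprecated false

open MeasureTheory Filter Topology Metric Set Polynomial ProbabilityTheory
open scoped ENNReal

namespace Pool.Agent.U523.RC

theorem sum_fin {K θ : ℝ} (hK : 0 < K) (h0 : 0 < θ) (h1 : θ < 1) :
    (∑' n : ℕ, ENNReal.ofReal (K * θ ^ n)) ≠ ∞ := by
  have hs : Summable fun n : ℕ => K * θ ^ n :=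
    (summable_geometric_of_lt_one h0.le h1).mul_left K
  rw [← ENNReal.ofReal_tsum_of_nonneg (fun n => by positivity) hs]
  exact ENNReal.ofReal_ne_top

theorem partA {d : ℕ} (hd : 2 ≤ d) (μ : Measure (Fin (d + 1) → ℂ))
    (hμ : IsProbabilityMeasure μ) (hc : IsCompact μ.support)
    (hl : ∀ a ∈ μ.support, a (Fin.last d) ≠ 0) (a₀ : Fin (d + 1) → ℂ) (ε : ℝ) (hε : 0 < ε)
    (hs : ∀ t : ℂ, ‖t‖ < ε → a₀ + Pi.single 0 t ∈ μ.support) :
    ∃ (K θ : ℝ) (M : ℕ), 0 < K ∧ 0 < θ ∧ θ < 1 ∧
      ∀ (Ω : Type) [MeasurableSpace Ω] (P : Measure Ω) [IsProbabilityMeasure P]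
        (A : ℕ → Ω → Fin (d + 1) → ℂ), (∀ i, Measurable (A i)) → iIndepFun A P →
        (∀ i, P.map (A i) = μ) → ∀ σ : ℕ → ℕ → ℕ, (∀ n, InjOn (σ n) (Iio n)) →
          (∀ n, P {ω | ¬ ((compose (fun k => poly (A (σ n k) ω)) n).natDegree = d ^ n ∧
            HyperbolicWith M (K * θ ^ n) (compose (fun k => poly (A (σ n k) ω)) n))} ≤
            ENNReal.ofReal (K * θ ^ n)) ∧
          ∀ᵐ ω ∂P, ∀ᶠ n in atTop,
            (compose (fun k => poly (A (σ n k) ω)) n).natDegree = d ^ n ∧
            HyperbolicWith M (K * θ ^ n) (compose (fun k => poly (A (σ n k) ω)) n) := by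
  set Y := sysA hd μ hμ hc hl a₀ ε hε hs with hY
  obtain ⟨K, θ, M, hK, h0, h1, hmain⟩ := main Y
  refine ⟨K, θ, M, hK, h0, h1, fun Ω _ P _ A hA hind hlaw σ hσ => ?_⟩
  have hsup : ∀ i, ∀ᵐ ω ∂P, A i ω ∈ μ.support := by
    intro i
    have h2 : ∀ᵐ a ∂(P.map (A i)), a ∈ μ.support := by
      rw [hlaw i]; exact Measure.support_mem_ae
    exact ae_of_ae_map (hA i).aemeasurable h2
  have key : ∀ n, P {ω | ¬ ((compose (fun k => poly (A (σ n k) ω)) n).natDegree = d ^ n ∧
      HyperbolicWith M (K * θ ^ n) (compose (fun k => poly (A (σ n k) ω)) n))} ≤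
      ENNReal.ofReal (K * θ ^ n) := by
    intro n
    cases n with
    | zero =>
      have : {ω | ¬ ((compose (fun k => poly (A (σ 0 k) ω)) 0).natDegree = d ^ 0 ∧
          HyperbolicWith M (K * θ ^ 0) (compose (fun k => poly (A (σ 0 k) ω)) 0))} = ∅ := by
        ext ω
        simp only [mem_setOf_eq, mem_empty_iff_false, iff_false, not_not]
        exact ⟨by simp [compose], hyp_zero _ _ _⟩
      rw [this, measure_empty]
      exact zero_le
    | succ N =>
      set V : Ω → (Fin (N + 1) → (Fin (d + 1) → ℂ)) := fun ω k => A (σ (N + 1) k.val) ω with hV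
      have hVm : Measurable V := measurable_pi_lambda _ fun k => hA _
      have hinj : Function.Injective fun k : Fin (N + 1) => σ (N + 1) k.val := by
        intro k l hkl
        exact Fin.ext (hσ (N + 1) k.2 l.2 hkl)
      have hlawV : P.map V = Measure.pi fun _ : Fin (N + 1) => μ := by
        have h2 := (iIndepFun_iff_map_fun_eq_pi_map (μ := P)
          (f := fun k : Fin (N + 1) => A (σ (N + 1) k.val))
          (fun k => (hA _).aemeasurable)).1 (hind.precomp hinj)
        rw [hV, h2]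
        congr 1
        funext k
        exact hlaw _
      set B : Set (Fin (N + 1) → (Fin (d + 1) → ℂ)) :=
        {c | ¬ ∃ lam : ℝ, lam < 1 ∧ lam ≤ K * θ ^ (N + 1) ∧ Hyp (run Y (per c) (N + 1)) M lam}
        with hB
      have hBle : (Measure.pi fun _ : Fin (N + 1) => μ) B ≤ ENNReal.ofReal (K * θ ^ (N + 1)) :=
        hmain N
      have hnull : P (⋃ k : Fin (N + 1), {ω | A (σ (N + 1) k.val) ω ∉ μ.support}) = 0 := by
        rw [measure_iUnion_null_iff]
        intro k
        exact hsup _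
      have hsub : {ω | ¬ ((compose (fun k => poly (A (σ (N + 1) k) ω)) (N + 1)).natDegree =
          d ^ (N + 1) ∧ HyperbolicWith M (K * θ ^ (N + 1))
            (compose (fun k => poly (A (σ (N + 1) k) ω)) (N + 1)))} ⊆
          V ⁻¹' (toMeasurable (Measure.pi fun _ : Fin (N + 1) => μ) B) ∪
            (⋃ k : Fin (N + 1), {ω | A (σ (N + 1) k.val) ω ∉ μ.support}) := by
        intro ω hω
        by_contra hcon
        simp only [mem_union, mem_iUnion, not_or, not_exists, mem_setOf_eq, not_not] at hcon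
        obtain ⟨h2, h3⟩ := hcon
        have h4 : V ω ∉ B := fun h => h2 (subset_toMeasurable _ _ h)
        rw [hB, mem_setOf_eq, not_not] at h4
        apply hω
        refine ⟨compose_degree fun k hk => poly_degree (hl _ (h3 ⟨k, hk⟩)), ?_⟩
        exact hyp_of Y poly (fun a z => rfl) (V ω) h4 _ (fun k hk => rfl)
      calc P _ ≤ P _ := measure_mono hsub
        _ ≤ P (V ⁻¹' (toMeasurable (Measure.pi fun _ : Fin (N + 1) => μ) B)) +
            P (⋃ k : Fin (N + 1), {ω | A (σ (N + 1) k.val) ω ∉ μ.support}) :=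
            measure_union_le _ _
        _ = P (V ⁻¹' (toMeasurable (Measure.pi fun _ : Fin (N + 1) => μ) B)) := by
            rw [hnull, add_zero]
        _ = (P.map V) (toMeasurable (Measure.pi fun _ : Fin (N + 1) => μ) B) :=
            (Measure.map_apply hVm (measurableSet_toMeasurable _ _)).symm
        _ = (Measure.pi fun _ : Fin (N + 1) => μ) B := by rw [hlawV, measure_toMeasurable]
        _ ≤ _ := hBle
  refine ⟨key, ?_⟩
  have h2 := ae_eventually_notMem (μ := P) (s := fun n =>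
    {ω | ¬ ((compose (fun k => poly (A (σ n k) ω)) n).natDegree = d ^ n ∧
      HyperbolicWith M (K * θ ^ n) (compose (fun k => poly (A (σ n k) ω)) n))})
    (ne_top_of_le_ne_top (sum_fin hK h0 h1) (ENNReal.tsum_le_tsum key))
  filter_upwards [h2] with ω hω
  filter_upwards [hω] with n hn
  exact not_not.1 hn

theorem partB (T : ℂ[X]) (hT : 2 ≤ T.natDegree) (ε : ℝ) (hε : 0 < ε) :
    ∃ (K θ : ℝ) (M : ℕ), 0 < K ∧ 0 < θ ∧ θ < 1 ∧ ∀ n,
      Measure.pi (fun _ : Fin n => unif ε)
        {t | ¬ ((compose (fun k => T + C (ext t k)) n).natDegree = T.natDegree ^ n ∧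
          HyperbolicWith M (K * θ ^ n) (compose (fun k => T + C (ext t k)) n))} ≤
        ENNReal.ofReal (K * θ ^ n) := by
  set Y := sysB hT ε hε with hY
  obtain ⟨K, θ, M, hK, h0, h1, hmain⟩ := main Y
  refine ⟨K, θ, M, hK, h0, h1, fun n => ?_⟩
  have : IsProbabilityMeasure (unif ε) := unif_prob hε
  cases n with
  | zero =>
    have : {t : Fin 0 → ℂ | ¬ ((compose (fun k => T + C (ext t k)) 0).natDegree =
        T.natDegree ^ 0 ∧ HyperbolicWith M (K * θ ^ 0) (compose (fun k => T + C (ext t k)) 0))} =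
        ∅ := by
      ext ω
      simp only [mem_setOf_eq, mem_empty_iff_false, iff_false, not_not]
      exact ⟨by simp [compose], hyp_zero _ _ _⟩
    rw [this, measure_empty]
    exact zero_le
  | succ N =>
    refine (measure_mono ?_).trans (hmain N)
    intro t ht h4
    apply ht
    refine ⟨compose_degree fun k _ => natDegree_add_C, ?_⟩
    refine hyp_of Y (fun t => T + C t) (fun a z => rfl) t h4 _ (fun k hk => ?_)
    rw [ext, dif_pos hk]

theorem partC (T : ℂ[X]) (hT : 2 ≤ T.natDegree) (ε : ℝ) (hε : 0 < ε) :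
    ∃ M : ℕ, ∀ δ : ℝ, 0 < δ → ∃ N : ℕ, ∀ n, N ≤ n → ∃ t : ℕ → ℂ, (∀ k, ‖t k‖ < ε) ∧
      HyperbolicWith M δ (compose (fun k => T + C (t k)) n) := by
  obtain ⟨K, θ, M, hK, h0, h1, h⟩ := partB T hT ε hε
  refine ⟨M, fun δ hδ => ?_⟩
  have ht : Tendsto (fun n : ℕ => K * θ ^ n) atTop (𝓝 (K * 0)) :=
    (tendsto_pow_atTop_nhds_zero_of_lt_one h0.le h1).const_mul K
  rw [mul_zero] at ht
  obtain ⟨N, hN⟩ := eventually_atTop.1 (ht.eventually (gt_mem_nhds (lt_min hδ one_pos)))
  refine ⟨N, fun n hn => ?_⟩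
  have h2 := hN n hn
  have : IsProbabilityMeasure (unif ε) := unif_prob hε
  set P := Measure.pi (fun _ : Fin n => unif ε) with hP
  have h3 : P {t | ¬ ((compose (fun k => T + C (ext t k)) n).natDegree = T.natDegree ^ n ∧
      HyperbolicWith M (K * θ ^ n) (compose (fun k => T + C (ext t k)) n))} < 1 := by
    refine (h n).trans_lt ?_
    rw [← ENNReal.ofReal_one]
    exact (ENNReal.ofReal_lt_ofReal_iff one_pos).2 (h2.trans_le (min_le_right _ _))
  have h4 : P (⋃ k : Fin n, {t | t k ∉ ball (0 : ℂ) ε}) = 0 := by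
    rw [measure_iUnion_null_iff]
    intro k
    have h5 : ∀ᵐ a ∂(unif ε), a ∈ ball (0 : ℂ) ε := ae_cond_mem measurableSet_ball
    exact (measurePreserving_eval (fun _ : Fin n => unif ε) k).quasiMeasurePreserving.ae h5
  have h5 : ∃ t : Fin n → ℂ, t ∉ {t | ¬ ((compose (fun k => T + C (ext t k)) n).natDegree =
      T.natDegree ^ n ∧ HyperbolicWith M (K * θ ^ n) (compose (fun k => T + C (ext t k)) n))} ∪
      (⋃ k : Fin n, {t | t k ∉ ball (0 : ℂ) ε}) := by
    by_contra hcon
    have hcon' := not_exists_not.1 hcon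
    have h6 : (univ : Set (Fin n → ℂ)) ⊆ _ := fun t _ => hcon' t
    have h7 := (measure_mono (μ := P) h6).trans (measure_union_le _ _)
    rw [measure_univ, h4, add_zero] at h7
    exact absurd h3 (not_lt.2 h7)
  obtain ⟨t, ht⟩ := h5
  simp only [mem_union, mem_iUnion, not_or, not_exists, mem_setOf_eq, not_not] at ht
  obtain ⟨⟨-, h6⟩, h7⟩ := ht
  refine ⟨ext t, fun k => ?_, ?_⟩
  · unfold ext
    split_ifs with hk
    · exact mem_ball_zero_iff.1 (h7 ⟨k, hk⟩)
    · rw [norm_zero]; exact hε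
  · intro c hc
    rcases h6 c hc with h8 | ⟨m, hm, hM, z, hz, hd1, hd2, htt⟩
    · exact Or.inl h8
    · exact Or.inr ⟨m, hm, hM, z, hz, hd1, hd2.trans (h2.le.trans (min_le_left _ _)), htt⟩

end Pool.Agent.U523.RC
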